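import Pool.Agent.H10.AU.Fin

/-! # Averages over the descendants of a prefix -/

set_option autoImplicit false

namespace Pool.Agent.H10.AU

open Finset

/-- the average of `α` over the descendants of `n` at depth `k` (base `B`) -/
noncomputable def av (B : ℕ) (α : ℕ → ℝ) : ℕ → ℕ → ℝ
  | 0, n => α n
  | k + 1, n => (∑ r ∈ range B, av B α k (B * n + r)) / B

variable {B : ℕ} {α : ℕ → ℝ}

lemma av_mem (hB : 0 < B) (h0 : ∀ n, 0 ≤ α n) (h1 : ∀ n, α n ≤ 1) :
    ∀ k n, 0 ≤ av B α k n ∧ av B α k n ≤ 1 := by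
  have hB' : (0 : ℝ) < B := by exact_mod_cast hB
  intro k
  induction k with
  | zero => intro n; exact ⟨h0 n, h1 n⟩
  | succ k ih =>
    intro n
    constructor
    · exact div_nonneg (sum_nonneg fun r _ => (ih _).1) hB'.le
    · change (∑ r ∈ range B, av B α k (B * n + r)) / B ≤ 1
      rw [div_le_one hB']
      calc ∑ r ∈ range B, av B α k (B * n + r) ≤ ∑ r ∈ range B, (1 : ℝ) :=
            sum_le_sum fun r _ => (ih _).2
        _ = B := by simp

lemma av_congr {Q : Type*} {F : ℕ → Q} (hα : ∀ x y, F x = F y → α x = α y)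
    (hstep : ∀ x y r, r < B → F x = F y → F (B * x + r) = F (B * y + r)) :
    ∀ k x y, F x = F y → av B α k x = av B α k y := by
  intro k
  induction k with
  | zero => intro x y h; exact hα x y h
  | succ k ih =>
    intro x y h
    change (∑ r ∈ range B, av B α k (B * x + r)) / B = (∑ r ∈ range B, av B α k (B * y + r)) / B
    congr 1
    exact sum_congr rfl fun r hr => ih _ _ (hstep x y r (mem_range.1 hr) h)

lemma sum_range_mul (g : ℕ → ℝ) (L : ℕ) : ∀ M : ℕ,
    ∑ n ∈ range (L * M), g n = ∑ m ∈ range M, ∑ r ∈ range L, g (L * m + r) := by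
  intro M
  induction M with
  | zero => simp
  | succ M ih => rw [mul_add, mul_one, sum_range_add, ih, sum_range_succ]

/-- the sum over the descendants -/
lemma av_sum (hB : 0 < B) : ∀ k n, ∑ r ∈ range (B ^ k), α (B ^ k * n + r) = B ^ k * av B α k n := by
  have hB' : (B : ℝ) ≠ 0 := by exact_mod_cast hB.ne'
  intro k
  induction k with
  | zero => intro n; simp [av]
  | succ k ih =>
    intro n
    rw [pow_succ, sum_range_mul (fun r => α (B ^ k * B * n + r))]
    have e : ∀ m ∈ range B, ∑ r ∈ range (B ^ k), α (B ^ k * B * n + (B ^ k * m + r)) =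
        B ^ k * av B α k (B * n + m) := by
      intro m _
      rw [← ih]
      refine sum_congr rfl fun r _ => ?_
      congr 1
      ring
    rw [sum_congr rfl e, ← mul_sum]
    change (B : ℝ) ^ k * ∑ i ∈ range B, av B α k (B * n + i) =
      (B : ℝ) ^ k * B * ((∑ r ∈ range B, av B α k (B * n + r)) / B)
    field_simp

/-- **contraction** of the oscillation of the averages below a good prefix -/
lemma av_osc {Q : Type*} {F : ℕ → Q} (hB : 2 ≤ B) (h0 : ∀ n, 0 ≤ α n) (h1 : ∀ n, α n ≤ 1)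
    (hα : ∀ x y, F x = F y → α x = α y)
    (hstep : ∀ x y r, r < B → F x = F y → F (B * x + r) = F (B * y + r)) {P : ℕ → Prop}
    (hmeet : ∀ n j m1 m2, P n → m1 / B ^ j = n → m2 / B ^ j = n →
        ∃ r1 < B, ∃ r2 < B, F (B * m1 + r1) = F (B * m2 + r2)) :
    ∀ k n j m1 m2, P n → m1 / B ^ j = n → m2 / B ^ j = n →
      |av B α k m1 - av B α k m2| ≤ (1 - 1 / (B : ℝ)) ^ k := by
  have hB0 : 0 < B := by omega
  have hB' : (0 : ℝ) < B := by exact_mod_cast hB0
  intro k
  induction k with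
  | zero =>
    intro n j m1 m2 _ _ _
    rw [pow_zero, abs_le]
    have e1 := av_mem hB0 h0 h1 0 m1
    have e2 := av_mem hB0 h0 h1 0 m2
    constructor <;> linarith [e1.1, e1.2, e2.1, e2.2]
  | succ k ih =>
    intro n j m1 m2 hn hm1 hm2
    obtain ⟨r1, hr1, r2, hr2, hF⟩ := hmeet n j m1 m2 hn hm1 hm2
    have hdesc : ∀ m r, m / B ^ j = n → r < B → (B * m + r) / B ^ (j + 1) = n := by
      intro m r hm hr
      rw [pow_succ', ← Nat.div_div_eq_div_mul, Nat.mul_add_div hB0, Nat.div_eq_of_lt hr, add_zero, hm]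
    set σ : Equiv.Perm ℕ := Equiv.swap r1 r2 with hσ
    have hσr : ∀ r, r < B → σ r < B := by
      intro r hr
      rcases eq_or_ne r r1 with h | h
      · rw [h, hσ, Equiv.swap_apply_left]; exact hr2
      · rcases eq_or_ne r r2 with h' | h'
        · rw [h', hσ, Equiv.swap_apply_right]; exact hr1
        · rw [hσ, Equiv.swap_apply_of_ne_of_ne h h']; exact hr
    have hsum : ∑ r ∈ range B, av B α k (B * m2 + r) = ∑ r ∈ range B, av B α k (B * m2 + σ r) := by
      refine (sum_bij' (fun r _ => σ r) (fun r _ => σ r) ?_ ?_ ?_ ?_ ?_).symm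
      · intro r hr; exact mem_range.2 (hσr r (mem_range.1 hr))
      · intro r hr; exact mem_range.2 (hσr r (mem_range.1 hr))
      · intro r _; simp [hσ]
      · intro r _; simp [hσ]
      · intro r _; rfl
    change |(∑ r ∈ range B, av B α k (B * m1 + r)) / B - (∑ r ∈ range B, av B α k (B * m2 + r)) / B|
      ≤ _
    rw [hsum, ← sub_div, ← sum_sub_distrib, abs_div, abs_of_pos hB', div_le_iff₀ hB']
    have hterm : ∀ r ∈ range B, |av B α k (B * m1 + r) - av B α k (B * m2 + σ r)| ≤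
        if r = r1 then 0 else (1 - 1 / (B : ℝ)) ^ k := by
      intro r hr
      split_ifs with h
      · rw [h, hσ, Equiv.swap_apply_left, av_congr hα hstep k _ _ hF, sub_self, abs_zero]
      · exact ih n (j + 1) _ _ hn (hdesc m1 r hm1 (mem_range.1 hr))
          (hdesc m2 (σ r) hm2 (hσr r (mem_range.1 hr)))
    refine (abs_sum_le_sum_abs _ _).trans ((sum_le_sum hterm).trans ?_)
    rw [← sum_filter_add_sum_filter_not (range B) (fun r => r = r1)]
    have e1 : ∑ r ∈ (range B).filter (fun r => r = r1),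
        (if r = r1 then (0 : ℝ) else (1 - 1 / (B : ℝ)) ^ k) = 0 := by
      apply sum_eq_zero
      intro r hr
      rw [if_pos (mem_filter.1 hr).2]
    have e2 : ∑ r ∈ (range B).filter (fun r => ¬ r = r1),
        (if r = r1 then (0 : ℝ) else (1 - 1 / (B : ℝ)) ^ k) = (B - 1) * (1 - 1 / (B : ℝ)) ^ k := by
      rw [sum_congr rfl (g := fun _ => (1 - 1 / (B : ℝ)) ^ k)
        (fun r hr => by rw [if_neg (mem_filter.1 hr).2])]
      rw [sum_const, nsmul_eq_mul]
      congr 1
      have e3 : (range B).filter (fun r => ¬ r = r1) = (range B).erase r1 := by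
        ext r; simp only [mem_filter, mem_erase]; tauto
      rw [e3, card_erase_of_mem (mem_range.2 hr1), card_range, Nat.cast_sub (by omega), Nat.cast_one]
    rw [e1, e2, zero_add, pow_succ]
    have e4 : (1 - 1 / (B : ℝ)) ^ k * (1 - 1 / (B : ℝ)) * B = (B - 1) * (1 - 1 / (B : ℝ)) ^ k := by
      field_simp
    rw [e4]

/-- the numbers without the hereditary property `P` have density zero -/
lemma bad_density (hB : 2 ≤ B) {P : ℕ → Prop} [DecidablePred P]
    (hP1 : ∀ n m j, P n → m / B ^ j = n → P m) (hP2 : ∀ n, ∃ r < B, P (B * n + r)) {ε : ℝ}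
    (hε : 0 < ε) : ∃ Z0 : ℕ, 1 ≤ Z0 ∧ ∀ Z ≥ Z0, (#{z ∈ range Z | ¬ P z} : ℝ) ≤ ε * Z := by
  have hB0 : 0 < B := by omega
  have hB' : (0 : ℝ) < B := by exact_mod_cast hB0
  have hB1 : (1 : ℝ) ≤ B := by exact_mod_cast hB0
  -- one step
  have h1 : ∀ M, #{z ∈ range (B * M) | ¬ P z} ≤ (B - 1) * #{z ∈ range M | ¬ P z} := by
    intro M
    choose g hg1 hg2 using hP2
    have hsub : (range (B * M)).filter (fun z => ¬ P z) ⊆
        ((range M).filter (fun z => ¬ P z)).biUnion
          (fun m => ((range B).erase (g m)).image (fun r => B * m + r)) := by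
      intro z hz
      rw [mem_filter, mem_range] at hz
      rw [mem_biUnion]
      refine ⟨z / B, ?_, ?_⟩
      · rw [mem_filter, mem_range]
        refine ⟨Nat.div_lt_of_lt_mul hz.1, fun hp => hz.2 (hP1 _ z 1 hp (by rw [pow_one]))⟩
      · rw [mem_image]
        refine ⟨z % B, ?_, Nat.div_add_mod z B⟩
        rw [mem_erase, mem_range]
        refine ⟨fun heq => ?_, Nat.mod_lt _ hB0⟩
        apply hz.2
        have h3 := hg2 (z / B)
        rw [← heq, Nat.div_add_mod] at h3
        exact h3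
    refine (card_le_card hsub).trans (card_biUnion_le.trans ?_)
    have h2 : ∀ m ∈ (range M).filter (fun z => ¬ P z),
        #(((range B).erase (g m)).image (fun r => B * m + r)) ≤ B - 1 := by
      intro m _
      refine card_image_le.trans ?_
      rw [card_erase_of_mem (mem_range.2 (hg1 m)), card_range]
    refine (sum_le_card_nsmul _ _ _ h2).trans ?_
    rw [smul_eq_mul, mul_comm]
  -- iteration
  have h2 : ∀ t M, #{z ∈ range (B ^ t * M) | ¬ P z} ≤ (B - 1) ^ t * M := by
    intro t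
    induction t with
    | zero =>
      intro M
      rw [pow_zero, one_mul, pow_zero, one_mul]
      exact (card_filter_le _ _).trans (card_range M).le
    | succ t ih =>
      intro M
      have e : B ^ (t + 1) * M = B * (B ^ t * M) := by ring
      rw [e]
      refine (h1 _).trans ?_
      calc (B - 1) * #{z ∈ range (B ^ t * M) | ¬ P z} ≤ (B - 1) * ((B - 1) ^ t * M) :=
            Nat.mul_le_mul_left _ (ih M)
        _ = (B - 1) ^ (t + 1) * M := by ring
  have hθ0 : 0 ≤ 1 - 1 / (B : ℝ) := by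
    rw [sub_nonneg, div_le_one hB']; exact hB1
  have hθ1 : 1 - 1 / (B : ℝ) < 1 := by
    have : 0 < 1 / (B : ℝ) := by positivity
    linarith
  obtain ⟨t, ht⟩ := exists_pow_lt_of_lt_one (half_pos hε) hθ1
  have hBt : 0 < B ^ t := Nat.pow_pos hB0
  have hBt' : (0 : ℝ) < (B : ℝ) ^ t := by positivity
  refine ⟨B ^ t, hBt, fun Z hZ => ?_⟩
  -- `Z ≤ B ^ t * M` with `M = Z / B ^ t + 1 ≤ 2 Z / B ^ t`
  have h3 : Z ≤ B ^ t * (Z / B ^ t + 1) := by
    have := Nat.div_add_mod Z (B ^ t)
    have h4 := Nat.mod_lt Z hBt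
    rw [mul_add, mul_one]
    omega
  have h4 : #{z ∈ range Z | ¬ P z} ≤ (B - 1) ^ t * (Z / B ^ t + 1) := by
    refine le_trans ?_ (h2 t (Z / B ^ t + 1))
    apply card_le_card
    intro z hz
    rw [mem_filter, mem_range] at hz ⊢
    exact ⟨lt_of_lt_of_le hz.1 h3, hz.2⟩
  have h5 : (#{z ∈ range Z | ¬ P z} : ℝ) ≤ ((B : ℝ) - 1) ^ t * (((Z / B ^ t : ℕ) : ℝ) + 1) := by
    have := (Nat.cast_le (α := ℝ)).2 h4
    push_cast [Nat.cast_sub (show 1 ≤ B by omega)] at this
    exact this
  have h6 : ((Z / B ^ t : ℕ) : ℝ) ≤ Z / (B : ℝ) ^ t := by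
    have := Nat.cast_div_le (α := ℝ) (m := Z) (n := B ^ t)
    push_cast at this
    exact this
  have h7 : (1 : ℝ) ≤ Z / (B : ℝ) ^ t := by
    rw [le_div_iff₀ hBt', one_mul]
    exact_mod_cast hZ
  have h8 : ((B : ℝ) - 1) ^ t = (1 - 1 / (B : ℝ)) ^ t * (B : ℝ) ^ t := by
    rw [← mul_pow]; congr 1; field_simp
  have h9 : (0 : ℝ) ≤ ((B : ℝ) - 1) ^ t := pow_nonneg (by linarith) _
  calc (#{z ∈ range Z | ¬ P z} : ℝ) ≤ ((B : ℝ) - 1) ^ t * (((Z / B ^ t : ℕ) : ℝ) + 1) := h5
    _ ≤ ((B : ℝ) - 1) ^ t * (2 * (Z / (B : ℝ) ^ t)) := by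
        apply mul_le_mul_of_nonneg_left _ h9
        linarith
    _ = 2 * (1 - 1 / (B : ℝ)) ^ t * Z := by rw [h8]; field_simp
    _ ≤ ε * Z := by
        apply mul_le_mul_of_nonneg_right _ (Nat.cast_nonneg _)
        linarith

end Pool.Agent.H10.AU
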