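import Pool.Agent.H10.AU.Link
import Pool.Graph.R_seed8.H509R3.Yao.Christol

/-! # Algebraic generating functions over finite fields come from automatic sets -/

set_option autoImplicit false

namespace Pool.Agent.H10.AU

open Finset Pool.Agent.H509R3.Yao

open Classical in
/-- the generating function of a set -/
noncomputable def gen (K : Type) [Field K] (A : Set ℕ) : PowerSeries K :=
  PowerSeries.mk fun n => if n ∈ A then (1 : K) else 0

open Classical in
lemma coeff_gen (K : Type) [Field K] (A : Set ℕ) (n : ℕ) :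
    PowerSeries.coeff n (gen K A) = if n ∈ A then (1 : K) else 0 := by
  unfold gen
  rw [PowerSeries.coeff_mk]

lemma gen_inj {K : Type} [Field K] {A A' : Set ℕ} (h : gen K A = gen K A') : A = A' := by
  classical
  ext n
  have h1 : PowerSeries.coeff n (gen K A) = PowerSeries.coeff n (gen K A') := by rw [h]
  rw [coeff_gen, coeff_gen] at h1
  by_cases h2 : n ∈ A <;> by_cases h3 : n ∈ A' <;> simp_all

lemma cart_gen {K : Type} [Field K] [Finite K] (p : ℕ) [Fact p.Prime] [CharP K p] (c : ℕ)
    (A : Set ℕ) : cart p 1 c (gen K A) = gen K {n | p * n + c ∈ A} := by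
  classical
  ext n
  rw [coeff_cart, coeff_gen, coeff_gen, pow_one]
  simp only [Set.mem_ofPred_eq]
  split_ifs
  · exact map_one _
  · exact map_zero _

/-- a relation between the powers `h ^ (p ^ i)` -/
lemma exists_rel {K : Type} [Field K] (p : ℕ) (hp : 2 ≤ p) (h : PowerSeries K)
    (halg : IsAlgebraic (Polynomial K) h) :
    ∃ (s n b : ℕ) (A : ℕ → PowerSeries K), A 0 ≠ 0 ∧ (∀ i, de b (A i)) ∧ Rel p 1 h s n A := by
  classical
  obtain ⟨y, hy0, hyint⟩ := halg.exists_integral_multiple
  set z : PowerSeries K := y • h with hz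
  have hkey : ∃ N : Submodule (Polynomial K) (PowerSeries K), IsNoetherian (Polynomial K) N ∧
      ∀ i, z ^ i ∈ N := by
    refine ⟨Subalgebra.toSubmodule (Algebra.adjoin (Polynomial K) {z}),
      isNoetherian_of_fg_of_noetherian _ hyint.fg_adjoin_singleton, fun i => ?_⟩
    have h1 : z ∈ Algebra.adjoin (Polynomial K) {z} := Algebra.self_mem_adjoin_singleton _ _
    have h2 : z ^ i ∈ Algebra.adjoin (Polynomial K) {z} := Subalgebra.pow_mem _ h1 i
    exact h2
  obtain ⟨N, hN, hzN⟩ := hkey
  let v : ℕ → N := fun i => ⟨z ^ (p ^ i), hzN _⟩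
  have hdep : ¬ LinearIndependent (Polynomial K) v := by
    intro hli
    have := hli.finite_of_isNoetherian
    exact not_finite ℕ
  rw [not_linearIndependent_iff] at hdep
  obtain ⟨t, g, hsum, i1, hi1, hg1⟩ := hdep
  have hsum' : ∑ i ∈ t, g i • z ^ (p ^ i) = 0 := by
    have h1 := congrArg (Submodule.subtype N) hsum
    rw [map_sum, map_zero] at h1
    rw [← h1]
    refine sum_congr rfl fun i _ => ?_
    rw [map_smul]
    rfl
  set G : ℕ → Polynomial K := fun i => if i ∈ t then g i else 0 with hG
  obtain ⟨M, hM⟩ : ∃ M, ∀ i ∈ t, i < M := ⟨t.sup id + 1, fun i hi =>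
    Nat.lt_succ_of_le (le_sup (f := id) hi)⟩
  have hsumG : ∑ i ∈ range M, G i • z ^ (p ^ i) = 0 := by
    rw [← hsum', ← sum_subset (s₁ := t) (s₂ := range M) (fun i hi => mem_range.2 (hM i hi))]
    · refine sum_congr rfl fun i hi => ?_
      simp only [hG, if_pos hi]
    · intro i _ hi
      simp only [hG, if_neg hi, zero_smul]
  have hex : ∃ i, G i ≠ 0 := ⟨i1, by simp only [hG, if_pos hi1]; exact hg1⟩
  have hfind := Nat.find_spec hex
  set i0 := Nat.find hex with hi0
  have hmin : ∀ i < i0, G i = 0 := fun i hi => by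
    by_contra hcon
    exact Nat.find_min hex hi hcon
  have hi0M : i0 < M := by
    by_contra hcon
    apply hfind
    have : i0 ∉ t := fun hmem => hcon (hM _ hmem)
    simp only [hG, if_neg this]
  obtain ⟨n, hn⟩ : ∃ n, M = i0 + (n + 1) := ⟨M - i0 - 1, by omega⟩
  -- the coefficients
  set A : ℕ → PowerSeries K := fun j =>
    ((G (i0 + j) * y ^ (p ^ (i0 + j)) : Polynomial K) : PowerSeries K) with hA
  have hG0 : ∀ i, M ≤ i → G i = 0 := by
    intro i hi
    have : i ∉ t := fun hmem => by
      have := hM i hmem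
      omega
    simp only [hG, if_neg this]
  refine ⟨i0, n, ∑ i ∈ range M, (G i * y ^ (p ^ i)).natDegree, A, ?_, ?_, ?_⟩
  · simp only [hA, add_zero]
    rw [Ne, Polynomial.coe_eq_zero_iff]
    exact mul_ne_zero hfind (pow_ne_zero _ hy0)
  · intro j m hm
    simp only [hA]
    rw [Polynomial.coeff_coe]
    by_cases hj : i0 + j < M
    · apply Polynomial.coeff_eq_zero_of_natDegree_lt
      refine lt_of_le_of_lt ?_ hm
      exact single_le_sum (f := fun i => (G i * y ^ (p ^ i)).natDegree) (fun i _ => Nat.zero_le _)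
        (mem_range.2 hj)
    · rw [hG0 _ (by omega), zero_mul, Polynomial.coeff_zero]
  · unfold Pool.Agent.H509R3.Yao.Rel
    rw [hn, sum_range_add] at hsumG
    have e1 : ∑ x ∈ range i0, G x • z ^ (p ^ x) = 0 := by
      apply sum_eq_zero
      intro i hi
      rw [hmin i (mem_range.1 hi), zero_smul]
    rw [e1, zero_add] at hsumG
    rw [← hsumG]
    refine sum_congr rfl fun j _ => ?_
    simp only [hA, pow_one]
    rw [hz, smul_pow, smul_smul, Algebra.smul_def, PowerSeries.algebraMap_apply', add_comm j i0]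
    congr 1

/-- **One half of the theorem of Christol.** -/
theorem ker_finite_of_algebraic {K : Type} [Field K] [Finite K] (p : ℕ) [Fact p.Prime] [CharP K p]
    {A : Set ℕ} (halg : IsAlgebraic (Polynomial K) (gen K A)) : (Ker p A).Finite := by
  have hp : 2 ≤ p := (Fact.out : p.Prime).two_le
  obtain ⟨s, n, b, C, h0, hb, hr⟩ := exists_rel p hp (gen K A) halg
  obtain ⟨n', b', C', h0', hb', hr'⟩ := rel_reduce p 1 one_pos (gen K A) s n b C h0 hb hr
  obtain ⟨Sf, hfin, hmem, hcl⟩ := kernel_finite_of_rel p 1 one_pos (gen K A) n' b' C' h0' hb' hr'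
  have hall : ∀ e r, r < p ^ e → gen K {n | p ^ e * n + r ∈ A} ∈ Sf := by
    intro e
    induction e with
    | zero =>
      intro r hr
      have : r = 0 := by simpa using hr
      subst this
      have e1 : {n | p ^ 0 * n + 0 ∈ A} = A := by ext n; simp
      rw [e1]
      exact hmem
    | succ e ih =>
      intro r hr
      have hpe : 0 < p ^ e := Nat.pow_pos (by omega)
      have h1 := ih (r % p ^ e) (Nat.mod_lt _ hpe)
      have hc : r / p ^ e < p := by
        rw [Nat.div_lt_iff_lt_mul hpe, mul_comm, ← pow_succ]; exact hr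
      have h2 := hcl _ h1 (r / p ^ e) (by rw [pow_one]; exact hc)
      rw [cart_gen] at h2
      have e1 : {n | p * n + r / p ^ e ∈ {n | p ^ e * n + r % p ^ e ∈ A}} =
          {n | p ^ (e + 1) * n + r ∈ A} := by
        ext n
        simp only [Set.mem_ofPred_eq]
        have : p ^ e * (p * n + r / p ^ e) + r % p ^ e = p ^ (e + 1) * n + r := by
          have h3 := Nat.div_add_mod r (p ^ e)
          calc p ^ e * (p * n + r / p ^ e) + r % p ^ e =
                p ^ (e + 1) * n + (p ^ e * (r / p ^ e) + r % p ^ e) := by ring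
            _ = _ := by rw [h3]
        rw [this]
      rwa [e1] at h2
  refine Set.Finite.of_finite_image (f := gen K) (hfin.subset ?_) ?_
  · rintro _ ⟨D, ⟨e, r, hr, rfl⟩, rfl⟩
    exact hall e r hr
  · intro D _ D' _ hDD
    exact gen_inj hDD

end Pool.Agent.H10.AU
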