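import Mathlib

/-! # Finite automata reading digits: synchronisation of the depths below a typical prefix -/

set_option autoImplicit false

namespace Pool.Agent.H10.AU

variable {Q : Type*} {b : ℕ} {F : ℕ → Q}

/-- the states of the descendants of `n` at depth `j` -/
def R (b : ℕ) (F : ℕ → Q) (j n : ℕ) : Set Q := F '' {m | m / b ^ j = n}

lemma step_pow (hb : 0 < b) (hstep : ∀ x y r, r < b → F x = F y → F (b * x + r) = F (b * y + r)) :
    ∀ (j x y r : ℕ), r < b ^ j → F x = F y → F (b ^ j * x + r) = F (b ^ j * y + r) := by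
  intro j
  induction j with
  | zero =>
    intro x y r hr h
    have : r = 0 := by simpa using hr
    subst this
    simpa using h
  | succ j ih =>
    intro x y r hr h
    have h1 : r / b < b ^ j := by
      rw [Nat.div_lt_iff_lt_mul hb, ← pow_succ]; exact hr
    have h2 := hstep _ _ (r % b) (Nat.mod_lt _ hb) (ih x y (r / b) h1 h)
    have e : ∀ z, b * (b ^ j * z + r / b) + r % b = b ^ (j + 1) * z + r := by
      intro z
      have := Nat.div_add_mod r b
      calc b * (b ^ j * z + r / b) + r % b = b ^ (j + 1) * z + (b * (r / b) + r % b) := by ring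
        _ = _ := by rw [this]
    rw [e, e] at h2
    exact h2

lemma R_congr (hb : 0 < b) (hstep : ∀ x y r, r < b → F x = F y → F (b * x + r) = F (b * y + r))
    {x y : ℕ} (h : F x = F y) (j : ℕ) : R b F j x = R b F j y := by
  have key : ∀ x y : ℕ, F x = F y → R b F j x ⊆ R b F j y := by
    rintro x y h _ ⟨m, hm, rfl⟩
    have hm' : m / b ^ j = x := hm
    have hpos : 0 < b ^ j := Nat.pow_pos hb
    refine ⟨b ^ j * y + m % b ^ j, ?_, ?_⟩
    · change (b ^ j * y + m % b ^ j) / b ^ j = y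
      rw [Nat.mul_add_div hpos, Nat.div_eq_of_lt (Nat.mod_lt _ hpos), add_zero]
    · have h1 := step_pow hb hstep j x y (m % b ^ j) (Nat.mod_lt _ hpos) h
      rw [← h1]
      congr 1
      rw [← hm']
      exact Nat.div_add_mod m (b ^ j)
  exact Set.Subset.antisymm (key x y h) (key y x h.symm)

lemma R_sub {i j m n : ℕ} (h : m / b ^ j = n) : R b F i m ⊆ R b F (j + i) n := by
  rintro _ ⟨t, ht, rfl⟩
  refine ⟨t, ?_, rfl⟩
  change t / b ^ (j + i) = n
  have ht' : t / b ^ i = m := ht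
  rw [pow_add, mul_comm, ← Nat.div_div_eq_div_mul, ht', h]

/-- two numbers have descendants at depth `i` with the same state -/
def Meet (b : ℕ) (F : ℕ → Q) (i x y : ℕ) : Prop := (R b F i x ∩ R b F i y).Nonempty

lemma meet_congr (hb : 0 < b) (hstep : ∀ x y r, r < b → F x = F y → F (b * x + r) = F (b * y + r))
    {x x' y y' : ℕ} (h : F x = F x') (h' : F y = F y') {i : ℕ} (hm : Meet b F i x y) :
    Meet b F i x' y' := by
  unfold Meet at *
  rwa [R_congr hb hstep h, R_congr hb hstep h'] at hm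

lemma meet_succ (hb : 0 < b) (hstep : ∀ x y r, r < b → F x = F y → F (b * x + r) = F (b * y + r))
    {x y i : ℕ} (hm : Meet b F i x y) (t : ℕ) : Meet b F (i + t) x y := by
  obtain ⟨_, ⟨m1, h1, rfl⟩, ⟨m2, h2, h3⟩⟩ := hm
  have h1' : m1 / b ^ i = x := h1
  have h2' : m2 / b ^ i = y := h2
  have hpos : 0 < b ^ t := Nat.pow_pos hb
  have e : ∀ m z, m / b ^ i = z → (b ^ t * m) / b ^ (i + t) = z := by
    intro m z hz
    rw [pow_add, mul_comm (b ^ i), ← Nat.div_div_eq_div_mul, Nat.mul_div_cancel_left _ hpos, hz]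
  refine ⟨F (b ^ t * m1), ⟨b ^ t * m1, e _ _ h1', rfl⟩, ⟨b ^ t * m2, e _ _ h2', ?_⟩⟩
  have := step_pow hb hstep t m2 m1 0 hpos h3
  simpa using this

/-- `c` is an eventual bound for the number of states at the depths below `n` -/
def Bd (b : ℕ) (F : ℕ → Q) (n c : ℕ) : Prop := ∃ J, ∀ j ≥ J, (R b F j n).ncard ≤ c

variable [Finite Q]

lemma bd_exists (n : ℕ) : ∃ c, Bd b F n c :=
  ⟨Nat.card Q, 0, fun j _ => by
    rw [← Set.ncard_univ]
    exact Set.ncard_le_ncard (Set.subset_univ _) (Set.toFinite _)⟩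

open Classical in
/-- the upper limit of the number of states at the depths below `n` -/
noncomputable def c (b : ℕ) (F : ℕ → Q) (n : ℕ) : ℕ := Nat.find (bd_exists (b := b) (F := F) n)

lemma c_bd (n : ℕ) : Bd b F n (c b F n) := by
  classical
  exact Nat.find_spec (bd_exists (b := b) (F := F) n)

lemma c_le {n k : ℕ} (h : Bd b F n k) : c b F n ≤ k := by
  classical
  exact Nat.find_min' (bd_exists (b := b) (F := F) n) h

lemma c_inf {n k : ℕ} (h : k < c b F n) (J : ℕ) : ∃ j ≥ J, k < (R b F j n).ncard := by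
  by_contra hcon
  push Not at hcon
  exact absurd (c_le ⟨J, hcon⟩) (not_le.2 h)

lemma c_congr (hb : 0 < b) (hstep : ∀ x y r, r < b → F x = F y → F (b * x + r) = F (b * y + r))
    {x y : ℕ} (h : F x = F y) : c b F x = c b F y := by
  have key : ∀ x y : ℕ, F x = F y → c b F x ≤ c b F y := by
    intro x y h
    obtain ⟨J, hJ⟩ := c_bd (b := b) (F := F) y
    exact c_le ⟨J, fun j hj => by rw [R_congr hb hstep h]; exact hJ j hj⟩
  exact le_antisymm (key x y h) (key y x h.symm)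

lemma c_desc {m n j : ℕ} (h : m / b ^ j = n) : c b F m ≤ c b F n := by
  obtain ⟨J, hJ⟩ := c_bd (b := b) (F := F) n
  refine c_le ⟨J, fun i hi => ?_⟩
  exact (Set.ncard_le_ncard (R_sub h) (Set.toFinite _)).trans (hJ (j + i) (by omega))

/-- `n` is minimal: all descendants have the same number `c` -/
def Mi (b : ℕ) (F : ℕ → Q) (n : ℕ) : Prop := ∀ j m, m / b ^ j = n → c b F m = c b F n

lemma mi_desc {m n j : ℕ} (hn : Mi b F n) (h : m / b ^ j = n) : Mi b F m := by
  intro i t ht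
  rw [hn j m h]
  apply hn (j + i)
  rw [pow_add, mul_comm, ← Nat.div_div_eq_div_mul, ht, h]

lemma mi_congr (hb : 0 < b) (hstep : ∀ x y r, r < b → F x = F y → F (b * x + r) = F (b * y + r))
    {x y : ℕ} (h : F x = F y) (hx : Mi b F x) : Mi b F y := by
  intro j m hm
  have hpos : 0 < b ^ j := Nat.pow_pos hb
  have h1 := step_pow hb hstep j x y (m % b ^ j) (Nat.mod_lt _ hpos) h
  have h2 : b ^ j * y + m % b ^ j = m := by rw [← hm]; exact Nat.div_add_mod m (b ^ j)
  rw [h2] at h1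
  rw [← c_congr hb hstep h1, ← c_congr hb hstep h]
  apply hx j
  rw [Nat.mul_add_div hpos, Nat.div_eq_of_lt (Nat.mod_lt _ hpos), add_zero]

lemma mi_exists (n : ℕ) : ∃ j m, m / b ^ j = n ∧ Mi b F m := by
  classical
  have h : ∃ v, ∃ j m, m / b ^ j = n ∧ c b F m = v := ⟨c b F n, 0, n, by simp, rfl⟩
  obtain ⟨j, m, hm, hv⟩ := Nat.find_spec h
  refine ⟨j, m, hm, fun i t ht => le_antisymm (c_desc ht) ?_⟩
  rw [hv]
  refine Nat.find_min' h ⟨j + i, t, ?_, rfl⟩
  rw [pow_add, mul_comm, ← Nat.div_div_eq_div_mul, ht, hm]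

/-- two descendants at the same depth of a minimal number meet -/
lemma mi_meet {n m1 m2 j : ℕ} (hb : 0 < b) (hn : Mi b F n) (h1 : m1 / b ^ j = n)
    (h2 : m2 / b ^ j = n) : ∃ i, Meet b F i m1 m2 := by
  by_contra hcon
  push Not at hcon
  have hdis : ∀ i, Disjoint (R b F i m1) (R b F i m2) := by
    intro i
    rw [Set.disjoint_iff_inter_eq_empty]
    exact Set.not_nonempty_iff_eq_empty.1 (hcon i)
  have hne : ∀ i n, (R b F i n).Nonempty := by
    intro i n
    exact ⟨F (b ^ i * n), b ^ i * n, Nat.mul_div_cancel_left _ (Nat.pow_pos hb), rfl⟩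
  obtain ⟨J, hJ⟩ := c_bd (b := b) (F := F) n
  have hc1 : c b F m1 = c b F n := hn j m1 h1
  have hpos : 0 < c b F n := by
    have := hJ J le_rfl
    have h3 : 0 < (R b F J n).ncard := (Set.ncard_pos (Set.toFinite _)).2 (hne J n)
    omega
  obtain ⟨i, hi, hlt⟩ := c_inf (b := b) (F := F) (n := m1) (k := c b F n - 1) (by omega) J
  have h3 : 0 < (R b F i m2).ncard := (Set.ncard_pos (Set.toFinite _)).2 (hne i m2)
  have h4 : (R b F i m1 ∪ R b F i m2).ncard = (R b F i m1).ncard + (R b F i m2).ncard :=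
    Set.ncard_union_eq (hdis i) (Set.toFinite _) (Set.toFinite _)
  have h5 : (R b F i m1 ∪ R b F i m2).ncard ≤ (R b F (j + i) n).ncard :=
    Set.ncard_le_ncard (Set.union_subset (R_sub h1) (R_sub h2)) (Set.toFinite _)
  have h6 := hJ (j + i) (by omega)
  omega

/-- **Synchronisation.** -/
theorem finite_state (hb : 2 ≤ b)
    (hstep : ∀ x y r, r < b → F x = F y → F (b * x + r) = F (b * y + r)) :
    ∃ B : ℕ, 2 ≤ B ∧ ∃ P : ℕ → Prop,
      (∀ n m j, P n → m / B ^ j = n → P m) ∧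
      (∀ n, ∃ r < B, P (B * n + r)) ∧
      (∀ n j m1 m2, P n → m1 / B ^ j = n → m2 / B ^ j = n →
        ∃ r1 < B, ∃ r2 < B, F (B * m1 + r1) = F (B * m2 + r2)) ∧
      (∀ x y r, r < B → F x = F y → F (B * x + r) = F (B * y + r)) := by
  classical
  have hb0 : 0 < b := by omega
  -- uniform meeting depth
  have hI : ∀ q : Q × Q, ∃ i, ∀ x y, F x = q.1 → F y = q.2 → (∃ i', Meet b F i' x y) →
      Meet b F i x y := by
    intro q
    by_cases h : ∃ x y, F x = q.1 ∧ F y = q.2 ∧ ∃ i', Meet b F i' x y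
    · obtain ⟨x, y, hx, hy, i, hi⟩ := h
      exact ⟨i, fun x' y' hx' hy' _ => meet_congr hb0 hstep (hx.trans hx'.symm)
        (hy.trans hy'.symm) hi⟩
    · refine ⟨0, fun x y hx hy hxy => ?_⟩
      exact absurd ⟨x, y, hx, hy, hxy⟩ h
  choose fI hfI using hI
  obtain ⟨I, hIb⟩ := (Set.finite_range fI).bddAbove
  have hI' : ∀ x y, (∃ i', Meet b F i' x y) → ∀ i ≥ I, Meet b F i x y := by
    intro x y hxy i hi
    have h1 := hfI (F x, F y) x y rfl rfl hxy
    have h2 : fI (F x, F y) ≤ I := hIb ⟨_, rfl⟩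
    obtain ⟨t, ht⟩ := Nat.exists_eq_add_of_le (h2.trans hi)
    rw [ht]
    exact meet_succ hb0 hstep h1 t
  -- uniform depth of minimal descendants
  have hJ : ∀ q : Q, ∃ j, ∀ x, F x = q → ∃ m, m / b ^ j = x ∧ Mi b F m := by
    intro q
    by_cases h : ∃ x, F x = q
    · obtain ⟨x, hx⟩ := h
      obtain ⟨j, m, hm, hmi⟩ := mi_exists (b := b) (F := F) x
      refine ⟨j, fun y hy => ?_⟩
      have hpos : 0 < b ^ j := Nat.pow_pos hb0
      refine ⟨b ^ j * y + m % b ^ j, ?_, ?_⟩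
      · rw [Nat.mul_add_div hpos, Nat.div_eq_of_lt (Nat.mod_lt _ hpos), add_zero]
      · refine mi_congr hb0 hstep ?_ hmi
        have h1 := step_pow hb0 hstep j x y (m % b ^ j) (Nat.mod_lt _ hpos) (hx.trans hy.symm)
        rw [← h1]
        congr 1
        rw [← hm]
        exact (Nat.div_add_mod m (b ^ j)).symm
    · exact ⟨0, fun x hx => absurd ⟨x, hx⟩ h⟩
  choose fJ hfJ using hJ
  obtain ⟨J, hJb⟩ := (Set.finite_range fJ).bddAbove
  have hJ' : ∀ x, ∀ j ≥ J, ∃ m, m / b ^ j = x ∧ Mi b F m := by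
    intro x j hj
    obtain ⟨m, hm, hmi⟩ := hfJ (F x) x rfl
    have h2 : fJ (F x) ≤ J := hJb ⟨_, rfl⟩
    obtain ⟨t, ht⟩ := Nat.exists_eq_add_of_le (h2.trans hj)
    have hpos : 0 < b ^ t := Nat.pow_pos hb0
    refine ⟨b ^ t * m, ?_, mi_desc hmi (j := t) (Nat.mul_div_cancel_left _ hpos)⟩
    rw [ht, pow_add, mul_comm (b ^ fJ (F x)), ← Nat.div_div_eq_div_mul,
      Nat.mul_div_cancel_left _ hpos, hm]
  set K := I + J + 1 with hK
  have hpos : 0 < b ^ K := Nat.pow_pos hb0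
  refine ⟨b ^ K, ?_, Mi b F, ?_, ?_, ?_, ?_⟩
  · calc 2 ≤ b := hb
      _ = b ^ 1 := (pow_one b).symm
      _ ≤ b ^ K := Nat.pow_le_pow_right hb0 (by omega)
  · intro n m j hn hm
    rw [← pow_mul] at hm
    exact mi_desc hn hm
  · intro n
    obtain ⟨m, hm, hmi⟩ := hJ' n K (by omega)
    refine ⟨m % b ^ K, Nat.mod_lt _ hpos, ?_⟩
    have : b ^ K * n + m % b ^ K = m := by rw [← hm]; exact Nat.div_add_mod m (b ^ K)
    rw [this]
    exact hmi
  · intro n j m1 m2 hn h1 h2
    rw [← pow_mul] at h1 h2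
    obtain ⟨_, ⟨t1, ht1, rfl⟩, ⟨t2, ht2, h3⟩⟩ := hI' m1 m2 (mi_meet hb0 hn h1 h2) K (by omega)
    have ht1' : t1 / b ^ K = m1 := ht1
    have ht2' : t2 / b ^ K = m2 := ht2
    refine ⟨t1 % b ^ K, Nat.mod_lt _ hpos, t2 % b ^ K, Nat.mod_lt _ hpos, ?_⟩
    have e1 : b ^ K * m1 + t1 % b ^ K = t1 := by rw [← ht1']; exact Nat.div_add_mod t1 (b ^ K)
    have e2 : b ^ K * m2 + t2 % b ^ K = t2 := by rw [← ht2']; exact Nat.div_add_mod t2 (b ^ K)
    rw [e1, e2]
    exact h3.symm
  · intro x y r hr h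
    exact step_pow hb0 hstep K x y r hr h

end Pool.Agent.H10.AU
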