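import Pool.Agent.H10.AU.Chr

/-! # Algebraic generating functions over arbitrary fields -/

set_option autoImplicit false

namespace Pool.Agent.H10.AU

open Finset

/-- descent of solutions of linear systems with integer coefficients, positive characteristic -/
lemma descent_p {K : Type} [Field K] (p : ℕ) [Fact p.Prime] [CharP K p] {ι : Type} [Fintype ι]
    (u : ι → ℕ → ℤ) (a : ι → K) (ha : a ≠ 0) (h : ∀ m, ∑ i, a i * ((u i m : ℤ) : K) = 0) :
    ∃ a' : ι → ZMod p, a' ≠ 0 ∧ ∀ m, ∑ i, a' i * ((u i m : ℤ) : ZMod p) = 0 := by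
  let _ : Algebra (ZMod p) K := ZMod.algebra K p
  obtain ⟨i0, hi0⟩ := Function.ne_iff.1 ha
  have hi0' : a i0 ≠ 0 := hi0
  obtain ⟨φ, hφ⟩ : ∃ φ : Module.Dual (ZMod p) K, φ (a i0) ≠ 0 := by
    by_contra hcon
    push Not at hcon
    exact hi0' ((Module.forall_dual_apply_eq_zero_iff (ZMod p) (a i0)).1 hcon)
  refine ⟨fun i => φ (a i), fun h0 => hφ (congrFun h0 i0), fun m => ?_⟩
  have h1 := congrArg φ (h m)
  rw [map_zero, map_sum] at h1
  rw [← h1]
  refine sum_congr rfl fun i _ => ?_
  have h2 : a i * ((u i m : ℤ) : K) = ((u i m : ℤ) : ZMod p) • a i := by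
    rw [Algebra.smul_def, map_intCast, mul_comm]
  rw [h2, map_smul, smul_eq_mul, mul_comm]

/-- descent of solutions of linear systems with integer coefficients, characteristic zero -/
lemma descent_0 {K : Type} [Field K] [CharZero K] {ι : Type} [Fintype ι]
    (u : ι → ℕ → ℤ) (a : ι → K) (ha : a ≠ 0) (h : ∀ m, ∑ i, a i * ((u i m : ℤ) : K) = 0) :
    ∃ a' : ι → ZMod 2, a' ≠ 0 ∧ ∀ m, ∑ i, a' i * ((u i m : ℤ) : ZMod 2) = 0 := by
  classical
  obtain ⟨i0, hi0⟩ := Function.ne_iff.1 ha
  have hi0' : a i0 ≠ 0 := hi0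
  obtain ⟨φ, hφ⟩ : ∃ φ : Module.Dual ℚ K, φ (a i0) ≠ 0 := by
    by_contra hcon
    push Not at hcon
    exact hi0' ((Module.forall_dual_apply_eq_zero_iff ℚ (a i0)).1 hcon)
  -- rational solution
  have hq : ∀ m, ∑ i, φ (a i) * ((u i m : ℤ) : ℚ) = 0 := by
    intro m
    have h1 := congrArg φ (h m)
    rw [map_zero, map_sum] at h1
    rw [← h1]
    refine sum_congr rfl fun i _ => ?_
    have h2 : a i * ((u i m : ℤ) : K) = ((u i m : ℤ) : ℚ) • a i := by
      rw [Algebra.smul_def, map_intCast, mul_comm]
    rw [h2, map_smul, smul_eq_mul, mul_comm]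
  -- integral solution
  set D : ℕ := ∏ i, (φ (a i)).den with hD
  have hD0 : (D : ℚ) ≠ 0 := by
    rw [hD]
    push_cast
    exact prod_ne_zero_iff.2 fun i _ => by exact_mod_cast (φ (a i)).den_ne_zero
  have hz : ∃ b : ι → ℤ, b ≠ 0 ∧ ∀ m, ∑ i, b i * u i m = 0 := by
    have hint : ∀ i, ∃ z : ℤ, (z : ℚ) = D * φ (a i) := by
      intro i
      obtain ⟨c, hc⟩ : (φ (a i)).den ∣ D := dvd_prod_of_mem _ (mem_univ i)
      refine ⟨c * (φ (a i)).num, ?_⟩
      rw [hc]
      push_cast
      have := Rat.mul_den_eq_num (φ (a i))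
      linear_combination -(c : ℚ) * this
    choose b hb using hint
    refine ⟨b, fun h0 => ?_, fun m => ?_⟩
    · have h1 := hb i0
      rw [h0, Pi.zero_apply, Int.cast_zero] at h1
      exact mul_ne_zero hD0 hφ h1.symm
    · have h1 : ((∑ i, b i * u i m : ℤ) : ℚ) = 0 := by
        push_cast
        calc ∑ i, (b i : ℚ) * (u i m : ℚ) = ∑ i, D * (φ (a i) * ((u i m : ℤ) : ℚ)) := by
              refine sum_congr rfl fun i _ => ?_
              rw [hb]; ring
          _ = D * ∑ i, φ (a i) * ((u i m : ℤ) : ℚ) := by rw [mul_sum]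
          _ = 0 := by rw [hq, mul_zero]
      exact_mod_cast h1
  -- a solution with an odd entry
  have hex : ∃ n : ℕ, ∃ b : ι → ℤ, b ≠ 0 ∧ (∀ m, ∑ i, b i * u i m = 0) ∧ ∑ i, (b i).natAbs = n := by
    obtain ⟨b, h1, h2⟩ := hz
    exact ⟨_, b, h1, h2, rfl⟩
  obtain ⟨b, hb0, hb1, hb2⟩ := Nat.find_spec hex
  have hodd : ∃ i, ¬ (2 : ℤ) ∣ b i := by
    by_contra hcon
    push Not at hcon
    choose c hc using hcon
    have hc0 : c ≠ 0 := by
      rintro rfl
      apply hb0
      funext i
      rw [hc i]; simp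
    obtain ⟨i1, hi1⟩ := Function.ne_iff.1 hc0
    have hi1' : c i1 ≠ 0 := hi1
    have h1 : ∑ i, (c i).natAbs < ∑ i, (b i).natAbs := by
      apply sum_lt_sum
      · intro i _
        rw [hc i, Int.natAbs_mul, show (2 : ℤ).natAbs = 2 from rfl]
        omega
      · refine ⟨i1, mem_univ _, ?_⟩
        have h5 : 0 < (c i1).natAbs := Int.natAbs_pos.2 hi1'
        rw [hc i1, Int.natAbs_mul, show (2 : ℤ).natAbs = 2 from rfl]
        omega
    rw [hb2] at h1
    refine Nat.find_min hex h1 ⟨c, hc0, fun m => ?_, rfl⟩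
    have h2 := hb1 m
    have h3 : ∑ i, b i * u i m = 2 * ∑ i, c i * u i m := by
      rw [mul_sum]
      refine sum_congr rfl fun i _ => ?_
      rw [hc i]; ring
    omega
  obtain ⟨i1, hi1⟩ := hodd
  refine ⟨fun i => ((b i : ℤ) : ZMod 2), fun h0 => hi1 ?_, fun m => ?_⟩
  · have h1 := congrFun h0 i1
    exact (ZMod.intCast_zmod_eq_zero_iff_dvd (b i1) 2).1 h1
  · have h1 := congrArg (fun z : ℤ => (z : ZMod 2)) (hb1 m)
    push_cast at h1
    exact h1

/-- the algebraicity of a power series as a linear system -/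
lemma algebraic_iff {K : Type} [Field K] (f : PowerSeries K) :
    IsAlgebraic (Polynomial K) f ↔ ∃ d : ℕ, ∃ a : Fin d × Fin d → K, a ≠ 0 ∧
      ∀ m, ∑ i, a i * PowerSeries.coeff m (PowerSeries.X ^ (i.1 : ℕ) * f ^ (i.2 : ℕ)) = 0 := by
  classical
  constructor
  · rintro ⟨P, hP0, hP⟩
    obtain ⟨j0, hj0⟩ : ∃ j, P.coeff j ≠ 0 := by
      by_contra hcon
      push Not at hcon
      exact hP0 (Polynomial.ext fun n => by rw [hcon n, Polynomial.coeff_zero])
    obtain ⟨i0, hi0⟩ : ∃ i, (P.coeff j0).coeff i ≠ 0 := by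
      by_contra hcon
      push Not at hcon
      exact hj0 (Polynomial.ext fun n => by rw [hcon n, Polynomial.coeff_zero])
    set d := P.natDegree + 1 + ∑ j ∈ range (P.natDegree + 1), (P.coeff j).natDegree with hd
    have hjd : ∀ j, d ≤ j → P.coeff j = 0 := fun j hj =>
      Polynomial.coeff_eq_zero_of_natDegree_lt (by omega)
    have hid : ∀ i j, d ≤ i → (P.coeff j).coeff i = 0 := by
      intro i j hi
      by_cases hj : j < P.natDegree + 1
      · apply Polynomial.coeff_eq_zero_of_natDegree_lt
        have := single_le_sum (f := fun j => (P.coeff j).natDegree) (fun i _ => Nat.zero_le _)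
          (mem_range.2 hj)
        omega
      · rw [Polynomial.coeff_eq_zero_of_natDegree_lt (show P.natDegree < j by omega),
          Polynomial.coeff_zero]
    have hj0d : j0 < d := by
      by_contra hcon
      exact hj0 (hjd _ (not_lt.1 hcon))
    have hi0d : i0 < d := by
      by_contra hcon
      exact hi0 (hid _ _ (not_lt.1 hcon))
    refine ⟨d, fun i => (P.coeff i.2).coeff i.1, fun h0 => hi0 ?_, fun m => ?_⟩
    · have := congrFun h0 (⟨i0, hi0d⟩, ⟨j0, hj0d⟩)
      exact this
    · have hsum : (Polynomial.aeval f) P = ∑ j ∈ range d, ∑ i ∈ range d,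
          PowerSeries.C ((P.coeff j).coeff i) * (PowerSeries.X ^ i * f ^ j) := by
        rw [Polynomial.aeval_eq_sum_range' (show P.natDegree < d by omega)]
        refine sum_congr rfl fun j _ => ?_
        rw [Algebra.smul_def, PowerSeries.algebraMap_apply']
        have e1 : (P.coeff j : PowerSeries K) = ∑ i ∈ range d,
            PowerSeries.C ((P.coeff j).coeff i) * PowerSeries.X ^ i := by
          conv_lhs => rw [Polynomial.as_sum_range' (P.coeff j) d (by
            by_cases hj : j < P.natDegree + 1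
            · have := single_le_sum (f := fun j => (P.coeff j).natDegree) (fun i _ => Nat.zero_le _)
                (mem_range.2 hj)
              omega
            · rw [Polynomial.coeff_eq_zero_of_natDegree_lt (show P.natDegree < j by omega),
                Polynomial.natDegree_zero]
              omega)]
          ext n
          rw [Polynomial.coeff_coe, Polynomial.finsetSum_coeff, map_sum]
          refine sum_congr rfl fun i _ => ?_
          rw [Polynomial.coeff_monomial, PowerSeries.coeff_C_mul, PowerSeries.coeff_X_pow]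
          by_cases hin : i = n
          · subst hin; simp
          · rw [if_neg hin, if_neg (fun h => hin h.symm), mul_zero]
        have e2 : PowerSeries.map (algebraMap K K) (P.coeff j : PowerSeries K) =
            (P.coeff j : PowerSeries K) := by
          ext n; simp
        rw [e2, e1, sum_mul]
        refine sum_congr rfl fun i _ => ?_
        ring
      rw [hP] at hsum
      have h1 := congrArg (PowerSeries.coeff m) hsum
      rw [map_zero, map_sum] at h1
      rw [h1, Fintype.sum_prod_type_right, ← Fin.sum_univ_eq_sum_range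
        (fun j => PowerSeries.coeff m (∑ i ∈ range d,
          PowerSeries.C ((P.coeff j).coeff i) * (PowerSeries.X ^ i * f ^ j)))]
      refine sum_congr rfl fun j _ => ?_
      rw [map_sum, ← Fin.sum_univ_eq_sum_range
        (fun i => PowerSeries.coeff m (PowerSeries.C ((P.coeff j).coeff i) *
          (PowerSeries.X ^ i * f ^ (j : ℕ))))]
      refine sum_congr rfl fun i _ => ?_
      rw [PowerSeries.coeff_C_mul]
  · rintro ⟨d, a, ha, h⟩
    obtain ⟨⟨i0, j0⟩, hij⟩ := Function.ne_iff.1 ha
    have hij' : a (i0, j0) ≠ 0 := hij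
    set P : Polynomial (Polynomial K) := ∑ j : Fin d, Polynomial.monomial (j : ℕ)
      (∑ i : Fin d, Polynomial.monomial (i : ℕ) (a (i, j))) with hP
    refine ⟨P, fun h0 => hij' ?_, ?_⟩
    · have h1 : (P.coeff (j0 : ℕ)).coeff (i0 : ℕ) = a (i0, j0) := by
        rw [hP, Polynomial.finsetSum_coeff]
        rw [sum_eq_single j0]
        · rw [Polynomial.coeff_monomial, if_pos rfl, Polynomial.finsetSum_coeff, sum_eq_single i0]
          · rw [Polynomial.coeff_monomial, if_pos rfl]
          · intro i _ hi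
            rw [Polynomial.coeff_monomial, if_neg (fun h => hi (Fin.ext h))]
          · intro h; exact absurd (mem_univ _) h
        · intro j _ hj
          rw [Polynomial.coeff_monomial, if_neg (fun h => hj (Fin.ext h))]
        · intro h; exact absurd (mem_univ _) h
      rw [← h1, h0, Polynomial.coeff_zero, Polynomial.coeff_zero]
    · rw [hP, map_sum]
      ext m
      rw [map_sum, map_zero, ← h m, Fintype.sum_prod_type_right]
      refine sum_congr rfl fun j _ => ?_
      rw [Polynomial.aeval_monomial, PowerSeries.algebraMap_apply']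
      have e1 : PowerSeries.map (algebraMap K K)
          ((∑ i : Fin d, Polynomial.monomial (i : ℕ) (a (i, j)) : Polynomial K) : PowerSeries K) =
          ∑ i : Fin d, PowerSeries.C (a (i, j)) * PowerSeries.X ^ (i : ℕ) := by
        ext n
        rw [PowerSeries.coeff_map, Polynomial.coeff_coe, Polynomial.finsetSum_coeff, map_sum, map_sum]
        refine sum_congr rfl fun i _ => ?_
        rw [Polynomial.coeff_monomial, PowerSeries.coeff_C_mul, PowerSeries.coeff_X_pow]
        by_cases hin : (i : ℕ) = n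
        · rw [if_pos hin, if_pos hin.symm]; simp
        · rw [if_neg hin, if_neg (fun h => hin h.symm), mul_zero, map_zero]
      rw [e1, sum_mul, map_sum]
      refine sum_congr rfl fun i _ => ?_
      rw [mul_assoc, PowerSeries.coeff_C_mul]

/-- the generating function over the integers -/
lemma coeff_gen_pow {K : Type} [Field K] (A : Set ℕ) (i j m : ℕ) :
    PowerSeries.coeff m (PowerSeries.X ^ i * gen K A ^ j) =
      ((PowerSeries.coeff m (PowerSeries.X ^ i * (PowerSeries.mk (fun n => by
        classical exact if n ∈ A then (1 : ℤ) else 0) : PowerSeries ℤ) ^ j) : ℤ) : K) := by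
  classical
  have h : PowerSeries.map (Int.castRingHom K) (PowerSeries.X ^ i * (PowerSeries.mk (fun n => by
        classical exact if n ∈ A then (1 : ℤ) else 0) : PowerSeries ℤ) ^ j) =
        PowerSeries.X ^ i * gen K A ^ j := by
    rw [map_mul, map_pow, map_pow, PowerSeries.map_X]
    congr 2
    ext n
    rw [PowerSeries.coeff_map, coeff_gen, PowerSeries.coeff_mk]
    split_ifs <;> simp
  rw [← h, PowerSeries.coeff_map]
  rfl

/-- **From algebraic generating functions to finite kernels**, over an arbitrary field. -/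
theorem ker_finite_of_algebraic_field {K : Type} [Field K] {A : Set ℕ}
    (halg : IsAlgebraic (Polynomial K) (gen K A)) : ∃ p : ℕ, 2 ≤ p ∧ (Ker p A).Finite := by
  rw [algebraic_iff] at halg
  obtain ⟨d, a, ha, h⟩ := halg
  simp only [coeff_gen_pow] at h
  have key : ∀ p : ℕ, p.Prime → (∃ a' : Fin d × Fin d → ZMod p, a' ≠ 0 ∧ ∀ m, ∑ i, a' i *
      ((PowerSeries.coeff m (PowerSeries.X ^ (i.1 : ℕ) * (PowerSeries.mk (fun n => by
        classical exact if n ∈ A then (1 : ℤ) else 0) : PowerSeries ℤ) ^ (i.2 : ℕ)) : ℤ) : ZMod p) = 0) →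
      ∃ p : ℕ, 2 ≤ p ∧ (Ker p A).Finite := by
    intro p hp hex
    have : Fact p.Prime := ⟨hp⟩
    refine ⟨p, hp.two_le, ker_finite_of_algebraic (K := ZMod p) p ?_⟩
    rw [algebraic_iff]
    obtain ⟨a', ha', h'⟩ := hex
    refine ⟨d, a', ha', fun m => ?_⟩
    rw [← h' m]
    refine sum_congr rfl fun i _ => ?_
    rw [coeff_gen_pow]
  obtain ⟨p, hp⟩ := CharP.exists K
  rcases CharP.char_is_prime_or_zero K p with h1 | h1
  · have : Fact p.Prime := ⟨h1⟩
    exact key p h1 (descent_p p _ a ha h)
  · subst h1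
    have : CharZero K := CharP.charP_to_charZero K
    exact key 2 Nat.prime_two (descent_0 _ a ha h)

end Pool.Agent.H10.AU
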