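import Pool.Agent.H10.AU.Link
import Pool.Graph.R_pool_sql_team_seeded_2aa45f1a.Results.MP_ff4775_nt.JointShiftLaws

/-! # Time shift windows and automatic sets -/

set_option autoImplicit false

namespace Pool.Agent.H10.AU

open Finset Filter Topology
open Pool.Agent.W41.FU (bal)

/-- functions with the hypotheses of the library's theorem on Gowers norms are asymptotically
independent of automatic sets -/
theorem indep_hyp {b : ℕ} (hb : 2 ≤ b) {A : Set ℕ} (hA : (Ker b A).Finite) [DecidablePred (· ∈ A)]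
    {s : ℤ} {S : Set ℤ} {c : ℝ} {A' B' : ℕ} (H : Pool.Agent.W36.GU.Hyp {bal s S c} A' B')
    {ε : ℝ} (hε : 0 < ε) :
    ∃ N0 : ℕ, ∀ N ≥ N0, |∑ n ∈ range N, bal s S c (n : ℤ) * (if n ∈ A then 1 else 0)| ≤ ε * N := by
  classical
  have hf : ∀ n : ℕ, |bal s S c (n : ℤ)| ≤ 1 := fun n => H.abs _ rfl _
  have hcast : ∀ (F : ℤ → ℝ) (X : ℕ), ∑ n ∈ Icc (1 : ℤ) X, F n = ∑ n ∈ range X, F ((n : ℤ) + 1) := by
    intro F X
    rw [Pool.Agent.Q179.DV.sum_cast]
    rw [show Icc 1 X = (range X).map ⟨fun n => n + 1, add_left_injective 1⟩ by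
      ext n
      simp only [mem_Icc, Finset.mem_map, mem_range, Function.Embedding.coeFn_mk]
      constructor
      · rintro ⟨a, b⟩; exact ⟨n - 1, by omega, by omega⟩
      · rintro ⟨m, a, rfl⟩; omega]
    rw [sum_map]
    simp
  refine indep hb hA hf ?_ ?_ hε
  · intro ε hε
    obtain ⟨X0, h⟩ := H.fou (ε / 2) (by positivity)
    obtain ⟨N1, hN1⟩ := exists_nat_ge (2 / ε)
    refine ⟨X0 + N1 + 1, fun N hN => ?_⟩
    obtain ⟨X, rfl⟩ : ∃ X, N = X + 1 := ⟨N - 1, by omega⟩
    have h1 := h X (by omega) _ rfl 0 X (by omega) le_rfl 1 0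
    have h2 : (∑ n ∈ Icc (1 : ℤ) X, (Pool.Agent.W36.GU.win 0 X (bal s S c) n : ℂ) *
        Pool.Agent.W36.GU.psi 1 (0 * (n : ZMod 1))) = ((∑ n ∈ range X, bal s S c ((n : ℤ) + 1) : ℝ) : ℂ) := by
      rw [← hcast]
      push_cast
      refine sum_congr rfl fun n hn => ?_
      rw [mem_Icc] at hn
      have e : Pool.Agent.W36.GU.psi 1 (0 * (n : ZMod 1)) = 1 := by
        unfold Pool.Agent.W36.GU.psi
        rw [zero_mul, AddChar.map_zero_eq_one]
      rw [e, mul_one]
      unfold Pool.Agent.W36.GU.win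
      rw [if_pos ⟨by push_cast; omega, hn.2⟩]
    rw [h2, Complex.norm_real, Real.norm_eq_abs] at h1
    rw [sum_range_succ']
    have h3 := hf 0
    have h4 : (2 : ℝ) / ε ≤ X := hN1.trans (by exact_mod_cast (by omega : N1 ≤ X))
    rw [div_le_iff₀ hε] at h4
    push_cast at h1 h3 ⊢
    have h5 := abs_add_le (∑ n ∈ range X, bal s S c ((n : ℤ) + 1)) (bal s S c 0)
    nlinarith
  · intro L ε hε
    obtain ⟨X0, h⟩ := H.loc_all (κ := ε / (2 * (L + 1))) (by positivity) L
    obtain ⟨N1, hN1⟩ := exists_nat_ge (2 / ε)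
    refine ⟨X0 + N1 + 1, fun N hN => ?_⟩
    obtain ⟨X, rfl⟩ : ∃ X, N = X + 1 := ⟨N - 1, by omega⟩
    have h1 := h X (by omega) _ rfl
    have hd : ∀ x y : ℤ, bal s S c x ≠ bal s S c y → 1 ≤ |bal s S c x - bal s S c y| := by
      intro x y hxy
      unfold bal Pool.Agent.W41.ind at hxy ⊢
      split_ifs at hxy ⊢
      · exact absurd rfl hxy
      · have e : (1 : ℝ) - c - (0 - c) = 1 := by ring
        rw [e]; norm_num
      · have e : (0 : ℝ) - c - (1 - c) = -1 := by ring
        rw [e]; norm_num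
      · exact absurd rfl hxy
    have h2 : (({n ∈ range (X + 1) | ∃ r ≤ L, bal s S c ((n + r : ℕ) : ℤ) ≠ bal s S c (n : ℤ)} : Finset ℕ).card : ℝ) ≤
        1 + ∑ j ∈ range (L + 1), ∑ n ∈ range X, |bal s S c (((n : ℤ) + 1) + (j : ℤ)) - bal s S c ((n : ℤ) + 1)| := by
      rw [sum_comm, card_filter]
      push_cast
      rw [sum_range_succ']
      rw [add_comm (1 : ℝ)]
      refine add_le_add (sum_le_sum fun n _ => ?_) (by split_ifs <;> norm_num)
      split_ifs with hex
      · obtain ⟨r, hr, hne⟩ := hex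
        have h3 := hd _ _ hne
        have h4 := single_le_sum (f := fun j : ℕ => |bal s S c (((n : ℤ) + 1) + (j : ℤ)) - bal s S c ((n : ℤ) + 1)|)
          (s := range (L + 1)) (fun j _ => abs_nonneg _) (mem_range.2 (by omega : r < L + 1))
        refine le_trans ?_ h4
        push_cast at h3
        exact h3
      · exact sum_nonneg fun _ _ => abs_nonneg _
    have h5 : ∑ j ∈ range (L + 1), ∑ n ∈ range X, |bal s S c (((n : ℤ) + 1) + (j : ℤ)) - bal s S c ((n : ℤ) + 1)| ≤
        ∑ _j ∈ range (L + 1), ε / (2 * (L + 1)) * X := by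
      refine sum_le_sum fun j hj => ?_
      have := h1 j (by rw [mem_range] at hj; omega)
      rw [hcast] at this
      exact this
    rw [sum_const, card_range, nsmul_eq_mul] at h5
    have h6 : ((L + 1 : ℕ) : ℝ) * (ε / (2 * (L + 1)) * X) = ε / 2 * X := by
      push_cast
      field_simp
    rw [h6] at h5
    have h4 : (2 : ℝ) / ε ≤ X := hN1.trans (by exact_mod_cast (by omega : N1 ≤ X))
    rw [div_le_iff₀ hε] at h4
    push_cast
    push_cast at h2
    nlinarith

end Pool.Agent.H10.AU
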