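import Pool.Agent.H10.AU.Fld
import Pool.Agent.H10.AU.Win

/-! # Sets which are asymptotically independent of all automatic sets -/

set_option autoImplicit false

namespace Pool.Agent.H10.AU

open Finset Filter Topology

/-- the natural numbers `n` with `s n ∈ S` -/
def sd (s : ℤ) (S : Set ℤ) : Set ℕ := {n | s * (n : ℤ) ∈ S}

/-- the number of the `n` in `A` with `1 ≤ n ≤ N` -/
noncomputable def cn (A : Set ℕ) (N : ℕ) : ℕ := {n : ℕ | 1 ≤ n ∧ n ≤ N ∧ n ∈ A}.ncard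

open Classical in
theorem cn_eq (A : Set ℕ) (N : ℕ) : cn A N = #{n ∈ Icc 1 N | n ∈ A} := by
  unfold cn
  rw [← Set.ncard_coe_finset]
  congr 1
  ext n
  simp only [coe_filter, mem_Icc, Set.mem_ofPred_eq]
  tauto

theorem cn_le (A : Set ℕ) (N : ℕ) : cn A N ≤ N := by
  classical
  rw [cn_eq]
  calc _ ≤ #(Icc 1 N) := card_filter_le _ _
    _ = N := by simp

theorem cn_mono {A A' : Set ℕ} {N : ℕ} (h : ∀ n, 1 ≤ n → n ∈ A → n ∈ A') :
    cn A N ≤ cn A' N := by
  classical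
  rw [cn_eq, cn_eq]
  apply card_le_card
  intro n hn
  rw [mem_filter, mem_Icc] at hn ⊢
  exact ⟨hn.1, h n hn.1.1 hn.2⟩

open Classical in
theorem cn_sum (C : Set ℕ) (N : ℕ) : (cn C N : ℝ) = ∑ n ∈ Icc 1 N, if n ∈ C then (1 : ℝ) else 0 := by
  rw [cn_eq, card_filter]
  push_cast
  rfl

theorem cn_symmDiff (A A' : Set ℕ) (N : ℕ) :
    (cn (symmDiff A A') N : ℝ) = cn A N + cn A' N - 2 * cn (A ∩ A') N := by
  classical
  rw [cn_sum, cn_sum, cn_sum, cn_sum, mul_sum, ← sum_add_distrib, ← sum_sub_distrib]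
  refine sum_congr rfl fun n _ => ?_
  rw [Set.mem_symmDiff, Set.mem_inter_iff]
  by_cases h1 : n ∈ A <;> by_cases h2 : n ∈ A' <;> simp [h1, h2]; norm_num

/-- disjoint sets -/
theorem cn_sum_le {ι : Type*} (I : Finset ι) (B : ι → Set ℕ) (C : Set ℕ) (N : ℕ)
    (hsub : ∀ i ∈ I, ∀ n, 1 ≤ n → n ∈ B i → n ∈ C)
    (hdis : ∀ i ∈ I, ∀ j ∈ I, ∀ n, n ∈ B i → n ∈ B j → i = j) :
    ∑ i ∈ I, (cn (B i) N : ℝ) ≤ cn C N := by
  classical
  have h1 : ∑ i ∈ I, cn (B i) N = #(I.biUnion fun i => {n ∈ Icc 1 N | n ∈ B i}) := by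
    rw [card_biUnion]
    · exact sum_congr rfl fun i _ => cn_eq _ _
    · intro i hi j hj hij
      change Disjoint _ _
      rw [Finset.disjoint_left]
      intro n hn1 hn2
      rw [mem_filter] at hn1 hn2
      exact hij (hdis i hi j hj n hn1.2 hn2.2)
  have h2 : #(I.biUnion fun i => {n ∈ Icc 1 N | n ∈ B i}) ≤ cn C N := by
    rw [cn_eq]
    apply card_le_card
    intro n hn
    rw [mem_biUnion] at hn
    obtain ⟨i, hi, hn⟩ := hn
    rw [mem_filter, mem_Icc] at hn ⊢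
    exact ⟨hn.1, hsub i hi n hn.1.1 hn.2⟩
  have h3 : ∑ i ∈ I, cn (B i) N ≤ cn C N := h1 ▸ h2
  exact_mod_cast h3

/-- `S` has the density `w` on every automatic set, in every base -/
def Ind (w : ℝ) (S : Set ℕ) : Prop := ∀ b : ℕ, 2 ≤ b → ∀ A : Set ℕ, (Ker b A).Finite →
  Tendsto (fun N : ℕ => ((cn (A ∩ S) N : ℝ) - w * cn A N) / N) atTop (𝓝 0)

open Classical in
/-- from sums to counts -/
theorem conv {s : ℤ} {S : Set ℤ} {c : ℝ} {A : Set ℕ} (h0 : 0 ≤ c) (h1 : c ≤ 1)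
    (h : ∀ ε : ℝ, 0 < ε → ∃ N0 : ℕ, ∀ N ≥ N0, |∑ n ∈ range N, ((if s * (n : ℤ) ∈ S then (1 : ℝ) else 0) - c) *
      (if n ∈ A then 1 else 0)| ≤ ε * N) :
    Tendsto (fun N : ℕ => ((cn (A ∩ sd s S) N : ℝ) - c * cn A N) / N) atTop (𝓝 0) := by
  have hf : ∀ n : ℕ, |(if s * (n : ℤ) ∈ S then (1 : ℝ) else 0) - c| ≤ 1 := by
    intro n
    rw [abs_le]
    split_ifs <;> constructor <;> linarith
  rw [Metric.tendsto_atTop]
  intro ε hε
  obtain ⟨N0, hN0⟩ := h (ε / 4) (show 0 < ε / 4 by positivity)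
  obtain ⟨N1, hN1⟩ := exists_nat_ge (4 / ε)
  refine ⟨max (max N0 N1) 1, fun N hN => ?_⟩
  have hNpos : 1 ≤ N := le_trans (le_max_right _ _) hN
  have hN' : (0 : ℝ) < N := by exact_mod_cast hNpos
  have e1 := hN0 (N + 1) (by
    have := le_trans (le_trans (le_max_left _ _) (le_max_left _ _)) hN
    omega)
  have e2 : 4 ≤ N * ε := by
    rw [← div_le_iff₀ hε]
    exact hN1.trans (by exact_mod_cast le_trans (le_trans (le_max_right _ _) (le_max_left _ _)) hN)
  have e3 : ∑ n ∈ range (N + 1), ((if s * (n : ℤ) ∈ S then (1 : ℝ) else 0) - c) *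
      (if n ∈ A then 1 else 0) = ((cn (A ∩ sd s S) N : ℝ) - c * cn A N) +
        ((if s * ((0 : ℕ) : ℤ) ∈ S then (1 : ℝ) else 0) - c) * (if 0 ∈ A then 1 else 0) := by
    rw [sum_range_succ']
    congr 1
    rw [cn_eq, cn_eq, card_filter, card_filter]
    push_cast
    rw [mul_sum, ← sum_sub_distrib]
    rw [show Icc 1 N = (range N).map ⟨fun n => n + 1, add_left_injective 1⟩ by
      ext n
      simp only [mem_Icc, Finset.mem_map, mem_range, Function.Embedding.coeFn_mk]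
      constructor
      · rintro ⟨a, b⟩; exact ⟨n - 1, by omega, by omega⟩
      · rintro ⟨m, a, rfl⟩; omega]
    rw [sum_map]
    refine sum_congr rfl fun n _ => ?_
    simp only [Function.Embedding.coeFn_mk, Set.mem_inter_iff, sd, Set.mem_ofPred_eq]
    push_cast
    by_cases g1 : n + 1 ∈ A <;> by_cases g2 : s * ((n : ℤ) + 1) ∈ S <;> simp [g1, g2]
  have e4 : |((if s * ((0 : ℕ) : ℤ) ∈ S then (1 : ℝ) else 0) - c) * (if 0 ∈ A then 1 else 0)| ≤ 1 := by
    rw [abs_mul]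
    have := hf 0
    split_ifs at this ⊢ <;> simp only [abs_one, abs_zero, mul_one, mul_zero] <;> first
      | exact this | norm_num
  rw [e3] at e1
  generalize ((if s * ((0 : ℕ) : ℤ) ∈ S then (1 : ℝ) else 0) - c) * (if 0 ∈ A then 1 else 0) = w
    at e1 e4
  rw [Real.dist_eq, sub_zero, abs_div, abs_of_pos hN', div_lt_iff₀ hN']
  push_cast at e1
  have e5 := abs_sub_abs_le_abs_sub ((cn (A ∩ sd s S) N : ℝ) - c * cn A N) (-w)
  rw [sub_neg_eq_add, abs_neg] at e5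
  have hN1' : (1 : ℝ) ≤ N := by exact_mod_cast hNpos
  nlinarith

theorem ker_univ (b : ℕ) : (Ker b Set.univ).Finite := by
  refine (Set.finite_singleton (Set.univ : Set ℕ)).subset ?_
  rintro D ⟨e, r, _, rfl⟩
  simp

theorem cn_univ (N : ℕ) : cn Set.univ N = N := by
  classical
  rw [cn_eq]; simp

namespace Ind

variable {w : ℝ} {S : Set ℕ}

theorem density (h : Ind w S) : Tendsto (fun N : ℕ => (cn S N : ℝ) / N) atTop (𝓝 w) := by
  have h1 := (h 2 le_rfl Set.univ (ker_univ 2)).add_const w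
  rw [zero_add] at h1
  refine h1.congr' ?_
  filter_upwards [eventually_gt_atTop 0] with N hN
  have hN' : (0 : ℝ) < N := by exact_mod_cast hN
  rw [cn_univ, Set.univ_inter]
  field_simp
  ring

theorem mem (h : Ind w S) : 0 ≤ w ∧ w ≤ 1 := by
  refine ⟨ge_of_tendsto' h.density fun N => by positivity, le_of_tendsto' h.density fun N => ?_⟩
  exact div_le_one_of_le₀ (by exact_mod_cast cn_le S N) (Nat.cast_nonneg _)

theorem eventually_le (h : Ind w S) {b : ℕ} (hb : 2 ≤ b) {A : Set ℕ} (hA : (Ker b A).Finite) {ε : ℝ}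
    (hε : 0 < ε) : ∀ᶠ N : ℕ in atTop, |(cn (A ∩ S) N : ℝ) - w * cn A N| ≤ ε * N := by
  have h1 := Metric.tendsto_atTop.1 (h b hb A hA) ε hε
  obtain ⟨N0, hN0⟩ := h1
  filter_upwards [eventually_ge_atTop (max N0 1)] with N hN
  have h2 := hN0 N (le_trans (le_max_left _ _) hN)
  have hN' : (0 : ℝ) < N := by exact_mod_cast le_trans (le_max_right _ _) hN
  rw [Real.dist_eq, sub_zero, abs_div, abs_of_pos hN', div_lt_iff₀ hN'] at h2
  exact h2.le

theorem symm (h : Ind w S) {b : ℕ} (hb : 2 ≤ b) {A : Set ℕ} (hA : (Ker b A).Finite) {ε : ℝ}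
    (hε : 0 < ε) : ∀ᶠ N : ℕ in atTop, (min w (1 - w) - ε) * N ≤ cn (symmDiff A S) N := by
  have e1 := h.eventually_le (b := 2) le_rfl (ker_univ 2) (show 0 < ε / 4 by positivity)
  have e2 := h.eventually_le hb hA (show 0 < ε / 4 by positivity)
  filter_upwards [e1, e2, eventually_ge_atTop 1] with N g1 g2 hN
  have hN' : (0 : ℝ) < N := by exact_mod_cast hN
  rw [cn_univ, Set.univ_inter] at g1
  have g3 := (abs_le.1 g1).1
  have g4 := (abs_le.1 g2).2
  have g5 : (cn A N : ℝ) ≤ N := by exact_mod_cast cn_le A N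
  have g6 : (0 : ℝ) ≤ cn A N := Nat.cast_nonneg _
  rw [cn_symmDiff]
  rcases le_total w (1 / 2) with h | h
  · have m1 : min w (1 - w) ≤ w := min_le_left _ _
    nlinarith [mul_nonneg g6 (show 0 ≤ 1 - 2 * w by linarith)]
  · have m1 : min w (1 - w) ≤ 1 - w := min_le_right _ _
    nlinarith [mul_nonneg (sub_nonneg.2 g5) (show 0 ≤ 2 * w - 1 by linarith)]

theorem far (h : Ind w S) (h0 : 0 < w) (h1 : w < 1) {b : ℕ} (hb : 2 ≤ b) {A : Set ℕ} (hA : (Ker b A).Finite) :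
    ∃ c : ℝ, 0 < c ∧ ∀ᶠ N : ℕ in atTop, c * N ≤ cn (symmDiff A S) N := by
  have hm : 0 < min w (1 - w) := lt_min h0 (by linarith)
  refine ⟨min w (1 - w) / 2, by positivity, ?_⟩
  filter_upwards [h.symm hb hA (show 0 < min w (1 - w) / 2 by positivity)] with N hN
  rw [show min w (1 - w) / 2 = min w (1 - w) - min w (1 - w) / 2 by ring]
  exact hN

theorem not_ker (h : Ind w S) (h0 : 0 < w) (h1 : w < 1) {b : ℕ} (hb : 2 ≤ b) : ¬ (Ker b S).Finite := by
  intro hA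
  obtain ⟨c, hc, h2⟩ := h.far h0 h1 hb hA
  obtain ⟨N, hN, hN1⟩ := (h2.and (eventually_ge_atTop 1)).exists
  have : cn (symmDiff S S) N = 0 := by
    classical
    rw [symmDiff_self, cn_eq]; simp
  rw [this, Nat.cast_zero] at hN
  have hN' : (0 : ℝ) < N := by exact_mod_cast hN1
  nlinarith

theorem transcendental (h : Ind w S) (h0 : 0 < w) (h1 : w < 1) (K : Type) [Field K] :
    Transcendental (Polynomial K) (gen K S) := by
  intro halg
  obtain ⟨p, hp, hfin⟩ := ker_finite_of_algebraic_field (K := K) (A := S) halg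
  exact h.not_ker h0 h1 hp hfin

end Ind

end Pool.Agent.H10.AU
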