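import Pool.Agent.H10.AU.Main
import Pool.Graph.R_seed8.H668.SM.C

/-! # Sets invariant under the `3x+1` map and automatic sets -/

set_option autoImplicit false

namespace Pool.Agent.H10.AU

open Finset Filter Topology Pool.Agent.H499R2.CO

open Pool.Agent.H499R2.ND (Ci)

/-- the kernel of a set in base `b` -/
def Ker (b : ℕ) (A : Set ℕ) : Set (Set ℕ) :=
  {D : Set ℕ | ∃ e r : ℕ, r < b ^ e ∧ D = {n | b ^ e * n + r ∈ A}}

/-- the state of a number -/
def St (b : ℕ) (A : Set ℕ) (n : ℕ) : Ker b A → Prop := fun D => n ∈ D.1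

lemma st_iff {b : ℕ} {A : Set ℕ} {x y : ℕ} : St b A x = St b A y ↔
    ∀ e r, r < b ^ e → (b ^ e * x + r ∈ A ↔ b ^ e * y + r ∈ A) := by
  constructor
  · intro h e r hr
    have h1 := congrFun h ⟨{n | b ^ e * n + r ∈ A}, e, r, hr, rfl⟩
    exact iff_of_eq h1
  · intro h
    funext D
    obtain ⟨D, e, r, hr, rfl⟩ := D
    exact propext (h e r hr)

lemma st_step {b : ℕ} {A : Set ℕ} (x y r : ℕ) (hr : r < b) (h : St b A x = St b A y) :
    St b A (b * x + r) = St b A (b * y + r) := by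
  rw [st_iff] at *
  intro e r' hr'
  have h1 := h (e + 1) (b ^ e * r + r') (by
    calc b ^ e * r + r' < b ^ e * r + b ^ e := by omega
      _ = b ^ e * (r + 1) := by ring
      _ ≤ b ^ e * b := Nat.mul_le_mul_left _ hr
      _ = b ^ (e + 1) := (pow_succ _ _).symm)
  have e1 : ∀ z, b ^ (e + 1) * z + (b ^ e * r + r') = b ^ e * (b * z + r) + r' := fun z => by ring
  rw [e1, e1] at h1
  exact h1

/-- Locally constant sequences with a mean do not correlate with automatic sets. -/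
theorem indep {b : ℕ} (hb : 2 ≤ b) {A : Set ℕ} (hA : (Ker b A).Finite) [DecidablePred (· ∈ A)]
    {f : ℕ → ℝ} (hf : ∀ n, |f n| ≤ 1)
    (hmean : ∀ ε : ℝ, 0 < ε → ∃ N0 : ℕ, ∀ N ≥ N0, |∑ n ∈ range N, f n| ≤ ε * N)
    (hloc : ∀ L : ℕ, ∀ ε : ℝ, 0 < ε → ∃ N0 : ℕ, ∀ N ≥ N0,
      (({n ∈ range N | ∃ r ≤ L, f (n + r) ≠ f n} : Finset ℕ).card : ℝ) ≤ ε * N)
    {ε : ℝ} (hε : 0 < ε) :
    ∃ N0 : ℕ, ∀ N ≥ N0, |∑ n ∈ range N, f n * (if n ∈ A then 1 else 0)| ≤ ε * N := by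
  have : Finite (Ker b A) := hA
  obtain ⟨B, hB, P, hP1, hP2, hmeet, hstep⟩ := finite_state (F := St b A) hb
    (fun x y r hr h => st_step x y r hr h)
  refine main_sum (F := St b A) (α := fun n => if n ∈ A then 1 else 0) hB ?_ ?_ ?_ hstep hP1 hP2
    hmeet hf hmean hloc hε
  · intro n
    split_ifs <;> norm_num
  · intro n
    split_ifs <;> norm_num
  · intro x y h
    have h1 := (st_iff.1 h) 0 0 (by norm_num)
    simp only [pow_zero, one_mul, add_zero] at h1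
    simp only [h1]

open Classical in
/-- the normalised indicator function of an invariant set -/
theorem inv_seq {s : ℤ} (hs : s = 1 ∨ s = -1) {S : Set ℤ} (h : ∀ x : ℤ, x ∈ S ↔ Ci x ∈ S) :
    ∃ δ : ℝ, (0 < δ ↔ ∃ x ∈ S, 0 < s * x) ∧ (δ = 1 ↔ ∀ x, 0 < s * x → x ∈ S) ∧ 0 ≤ δ ∧ δ ≤ 1 ∧
      HD (fun n : ℕ => s * (n : ℤ) ∈ S) δ ∧
      (∀ ε : ℝ, 0 < ε → ∃ N0 : ℕ, ∀ N ≥ N0,
        |∑ n ∈ range N, ((if s * (n : ℤ) ∈ S then (1 : ℝ) else 0) - δ)| ≤ ε * N) ∧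
      (∀ L : ℕ, ∀ ε : ℝ, 0 < ε → ∃ N0 : ℕ, ∀ N ≥ N0,
        (({n ∈ range N | ∃ r ≤ L, ((if s * ((n + r : ℕ) : ℤ) ∈ S then (1 : ℝ) else 0) - δ) ≠
          ((if s * (n : ℤ) ∈ S then (1 : ℝ) else 0) - δ)} : Finset ℕ).card : ℝ) ≤ ε * N) := by
  obtain ⟨δ, h1, h2, h3, h4⟩ := Pool.Agent.H668.SM.inv_smooth hs h
  have hδ0 : 0 ≤ δ := by
    refine ge_of_tendsto' h3 fun N => ?_
    positivity
  have hδ1 : 0 ≤ 1 - δ := by
    refine ge_of_tendsto' h4 fun N => ?_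
    positivity
  have hz : ∀ n : ℕ, (0 + 0 + (0 : ℤ).natAbs) ^ 9 ≤ Nat.log 2 n := fun n => by simp
  set G1 : ℕ → Prop := fun n => ∀ (a b : ℕ) (r : ℤ), (a + b + r.natAbs) ^ 9 ≤ Nat.log 2 n →
        2 ^ a * 3 ^ b * (s * (n : ℤ)) + r ∈ S with hG1
  set G2 : ℕ → Prop := fun n => ∀ (a b : ℕ) (r : ℤ), (a + b + r.natAbs) ^ 9 ≤ Nat.log 2 n →
        2 ^ a * 3 ^ b * (s * (n : ℤ)) + r ∉ S with hG2
  have g1 : ∀ n, G1 n → s * (n : ℤ) ∈ S := by
    intro n hn
    have := hn 0 0 0 (hz n)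
    simpa using this
  have g2 : ∀ n, G2 n → s * (n : ℤ) ∉ S := by
    intro n hn
    have := hn 0 0 0 (hz n)
    simpa using this
  rw [HD_iff] at h3 h4
  -- counting estimates
  have hc : ∀ ε : ℝ, 0 < ε → ∃ N0 : ℕ, 1 ≤ N0 ∧ ∀ N ≥ N0, (δ - ε) * N ≤ #{n ∈ Icc 1 N | G1 n} ∧
      (1 - δ - ε) * N ≤ #{n ∈ Icc 1 N | G2 n} := by
    intro ε hε
    have e1 := h3.eventually (eventually_gt_nhds (show δ - ε < δ by linarith))
    have e2 := h4.eventually (eventually_gt_nhds (show 1 - δ - ε < 1 - δ by linarith))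
    obtain ⟨N0, hN0⟩ := eventually_atTop.1 (e1.and e2)
    refine ⟨max N0 1, le_max_right _ _, fun N hN => ?_⟩
    have hN1 : (0 : ℝ) < N := by
      have : 1 ≤ N := le_trans (le_max_right _ _) hN
      exact_mod_cast this
    obtain ⟨e3, e4⟩ := hN0 N (le_trans (le_max_left _ _) hN)
    exact ⟨((lt_div_iff₀ hN1).1 e3).le, ((lt_div_iff₀ hN1).1 e4).le⟩
  have hdisj : ∀ N : ℕ, #{n ∈ Icc 1 N | G1 n} + #{n ∈ Icc 1 N | G2 n} +
      #{n ∈ Icc 1 N | ¬ G1 n ∧ ¬ G2 n} = N := by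
    intro N
    have e1 : #{n ∈ Icc 1 N | G1 n} + #{n ∈ Icc 1 N | ¬ G1 n} = N := by
      rw [card_filter_add_card_filter_not]; simp
    have e2 : #{n ∈ Icc 1 N | G2 n} + #{n ∈ Icc 1 N | ¬ G1 n ∧ ¬ G2 n} = #{n ∈ Icc 1 N | ¬ G1 n} := by
      rw [← card_union_of_disjoint]
      · congr 1
        ext n
        simp only [mem_union, mem_filter]
        constructor
        · rintro (⟨a, b⟩ | ⟨a, b, c⟩)
          · exact ⟨a, fun hg => g2 n b (g1 n hg)⟩
          · exact ⟨a, b⟩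
        · rintro ⟨a, b⟩
          by_cases hg : G2 n
          · exact Or.inl ⟨a, hg⟩
          · exact Or.inr ⟨a, b, hg⟩
      · rw [disjoint_filter]
        intro n _ a b
        exact b.2 a
    omega
  have hSc : ∀ N : ℕ, #{n ∈ Icc 1 N | G1 n} ≤ #((Icc 1 N).filter (fun n : ℕ => s * (n : ℤ) ∈ S)) ∧
      #((Icc 1 N).filter (fun n : ℕ => s * (n : ℤ) ∈ S)) + #{n ∈ Icc 1 N | G2 n} ≤ N := by
    intro N
    constructor
    · apply card_le_card
      intro n hn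
      rw [mem_filter] at hn ⊢
      exact ⟨hn.1, g1 n hn.2⟩
    · rw [← card_union_of_disjoint]
      · calc _ ≤ #(Icc 1 N) := card_le_card (union_subset (filter_subset _ _) (filter_subset _ _))
          _ = N := by simp
      · rw [disjoint_filter]
        intro n _ a b
        exact g2 n b a
  refine ⟨δ, h1, h2, hδ0, by linarith, ?_, ?_, ?_⟩
  · rw [HD_iff]
    rw [Metric.tendsto_atTop]
    intro ε hε
    obtain ⟨N0, hN01, hN0⟩ := hc (ε / 2) (by positivity)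
    refine ⟨N0, fun N hN => ?_⟩
    have hN1 : (0 : ℝ) < N := by
      have : 1 ≤ N := hN01.trans hN
      exact_mod_cast this
    obtain ⟨e1, e2⟩ := hN0 N hN
    obtain ⟨e3, e4⟩ := hSc N
    have e3' : (#{n ∈ Icc 1 N | G1 n} : ℝ) ≤ #((Icc 1 N).filter (fun n : ℕ => s * (n : ℤ) ∈ S)) := by exact_mod_cast e3
    have e4' : (#((Icc 1 N).filter (fun n : ℕ => s * (n : ℤ) ∈ S)) : ℝ) + #{n ∈ Icc 1 N | G2 n} ≤ N := by
      exact_mod_cast e4
    rw [Real.dist_eq, abs_lt]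
    constructor
    · rw [lt_sub_iff_add_lt, lt_div_iff₀ hN1]
      nlinarith
    · rw [sub_lt_iff_lt_add, div_lt_iff₀ hN1]
      nlinarith
  · intro ε hε
    obtain ⟨N0, hN01, hN0⟩ := hc (ε / 2) (by positivity)
    obtain ⟨N1, hN1⟩ := exists_nat_ge (4 / ε)
    refine ⟨max (N0 + 1) N1, fun N hN => ?_⟩
    have hN2 : N0 + 1 ≤ N := le_trans (le_max_left _ _) hN
    obtain ⟨M, rfl⟩ : ∃ M, N = M + 1 := ⟨N - 1, by omega⟩
    obtain ⟨e1, e2⟩ := hN0 M (by omega)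
    obtain ⟨e3, e4⟩ := hSc M
    have e3' : (#{n ∈ Icc 1 M | G1 n} : ℝ) ≤ #((Icc 1 M).filter (fun n : ℕ => s * (n : ℤ) ∈ S)) := by exact_mod_cast e3
    have e4' : (#((Icc 1 M).filter (fun n : ℕ => s * (n : ℤ) ∈ S)) : ℝ) + #{n ∈ Icc 1 M | G2 n} ≤ M := by
      exact_mod_cast e4
    have e5 : ∑ n ∈ range (M + 1), ((if s * (n : ℤ) ∈ S then (1 : ℝ) else 0) - δ) =
        (#((Icc 1 M).filter (fun n : ℕ => s * (n : ℤ) ∈ S)) : ℝ) - δ * M +
          ((if s * ((0 : ℕ) : ℤ) ∈ S then (1 : ℝ) else 0) - δ) := by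
      rw [sum_range_succ']
      congr 1
      rw [sum_sub_distrib, sum_const, card_range, nsmul_eq_mul, mul_comm (M : ℝ)]
      congr 1
      rw [card_filter, Nat.cast_sum]
      rw [show Icc 1 M = (range M).map ⟨fun n => n + 1, add_left_injective 1⟩ by
        ext n
        simp only [mem_Icc, Finset.mem_map, mem_range, Function.Embedding.coeFn_mk]
        constructor
        · rintro ⟨a, b⟩; exact ⟨n - 1, by omega, by omega⟩
        · rintro ⟨m, a, rfl⟩; omega]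
      rw [sum_map]
      refine sum_congr rfl fun n _ => ?_
      simp only [Function.Embedding.coeFn_mk]
      split_ifs <;> simp
    have hM4 : 4 / ε ≤ ((M + 1 : ℕ) : ℝ) := hN1.trans (by exact_mod_cast le_trans (le_max_right _ _) hN)
    rw [div_le_iff₀ hε] at hM4
    have e6 : |(if s * ((0 : ℕ) : ℤ) ∈ S then (1 : ℝ) else 0) - δ| ≤ 1 := by
      rw [abs_le]; split_ifs <;> constructor <;> linarith
    rw [abs_le] at e6
    rw [e5]
    generalize ((if s * ((0 : ℕ) : ℤ) ∈ S then (1 : ℝ) else 0) - δ) = f0 at e6 ⊢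
    rw [abs_le]
    push_cast at hM4 ⊢
    have hMpos : (0 : ℝ) ≤ M := Nat.cast_nonneg M
    constructor
    · nlinarith [e6.1]
    · nlinarith [e6.2]
  · intro L ε hε
    obtain ⟨N0, hN01, hN0⟩ := hc (ε / 4) (by positivity)
    obtain ⟨N1, hN1⟩ := exists_nat_ge (2 * ((2 : ℝ) ^ (L ^ 9) + 1) / ε)
    refine ⟨max N0 N1, fun N hN => ?_⟩
    obtain ⟨e1, e2⟩ := hN0 N (le_trans (le_max_left _ _) hN)
    have hN2 : 2 * ((2 : ℝ) ^ (L ^ 9) + 1) ≤ N * ε := by
      rw [← div_le_iff₀ hε]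
      exact hN1.trans (by exact_mod_cast le_trans (le_max_right _ _) hN)
    have hsub : (range N).filter (fun n : ℕ => ∃ r ≤ L,
          ((if s * ((n + r : ℕ) : ℤ) ∈ S then (1 : ℝ) else 0) - δ) ≠
          ((if s * (n : ℤ) ∈ S then (1 : ℝ) else 0) - δ)) ⊆
        range (2 ^ (L ^ 9)) ∪ (Icc 1 N).filter (fun n => ¬ G1 n ∧ ¬ G2 n) := by
      intro n hn
      rw [mem_filter, mem_range] at hn
      rw [mem_union, mem_range, mem_filter, mem_Icc]
      obtain ⟨hnN, r, hr, hne⟩ := hn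
      by_cases hnL : n < 2 ^ (L ^ 9)
      · exact Or.inl hnL
      right
      push Not at hnL
      have hn1 : 1 ≤ n := le_trans Nat.one_le_two_pow hnL
      have hlog : L ^ 9 ≤ Nat.log 2 n := Nat.le_log_of_pow_le (by norm_num) hnL
      refine ⟨⟨hn1, hnN.le⟩, ?_, ?_⟩
      · intro hg
        apply hne
        have e5 : s * ((n + r : ℕ) : ℤ) ∈ S := by
          have := hg 0 0 (s * r) (by
            rcases hs with rfl | rfl
            · simpa using le_trans (Nat.pow_le_pow_left hr 9) hlog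
            · simpa using le_trans (Nat.pow_le_pow_left hr 9) hlog)
          have e6 : (2 : ℤ) ^ 0 * 3 ^ 0 * (s * (n : ℤ)) + s * r = s * ((n + r : ℕ) : ℤ) := by
            push_cast; ring
          rwa [e6] at this
        rw [if_pos e5, if_pos (g1 n hg)]
      · intro hg
        apply hne
        have e5 : s * ((n + r : ℕ) : ℤ) ∉ S := by
          have := hg 0 0 (s * r) (by
            rcases hs with rfl | rfl
            · simpa using le_trans (Nat.pow_le_pow_left hr 9) hlog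
            · simpa using le_trans (Nat.pow_le_pow_left hr 9) hlog)
          have e6 : (2 : ℤ) ^ 0 * 3 ^ 0 * (s * (n : ℤ)) + s * r = s * ((n + r : ℕ) : ℤ) := by
            push_cast; ring
          rwa [e6] at this
        rw [if_neg e5, if_neg (g2 n hg)]
    have e5 := (card_le_card hsub).trans (card_union_le _ _)
    rw [card_range] at e5
    have e5' : (#((range N).filter (fun n : ℕ => ∃ r ≤ L,
          ((if s * ((n + r : ℕ) : ℤ) ∈ S then (1 : ℝ) else 0) - δ) ≠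
          ((if s * (n : ℤ) ∈ S then (1 : ℝ) else 0) - δ))) : ℝ) ≤
        (2 : ℝ) ^ (L ^ 9) + #{n ∈ Icc 1 N | ¬ G1 n ∧ ¬ G2 n} := by exact_mod_cast e5
    have e7 := hdisj N
    have e7' : (#{n ∈ Icc 1 N | G1 n} : ℝ) + #{n ∈ Icc 1 N | G2 n} +
      #{n ∈ Icc 1 N | ¬ G1 n ∧ ¬ G2 n} = N := by exact_mod_cast e7
    linarith

end Pool.Agent.H10.AU
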