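import Pool.Agent.H10.AU.Avg

/-! # Locally constant sequences with a mean are asymptotically independent of automata -/

set_option autoImplicit false

namespace Pool.Agent.H10.AU

open Finset

variable {B : ℕ} {α f : ℕ → ℝ}

/-- replacing `α` by its averages over blocks of fixed length -/
lemma block_avg (hB : 2 ≤ B) (h0 : ∀ n, 0 ≤ α n) (h1 : ∀ n, α n ≤ 1) (hf : ∀ n, |f n| ≤ 1)
    (hloc : ∀ L : ℕ, ∀ ε : ℝ, 0 < ε → ∃ N0 : ℕ, ∀ N ≥ N0,
      (({n ∈ range N | ∃ r ≤ L, f (n + r) ≠ f n} : Finset ℕ).card : ℝ) ≤ ε * N)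
    (k : ℕ) {ε : ℝ} (hε : 0 < ε) :
    ∃ N0 : ℕ, ∀ N ≥ N0, |∑ n ∈ range N, f n * (α n - av B α k (n / B ^ k))| ≤ ε * N := by
  classical
  have hB0 : 0 < B := by omega
  set L := B ^ k with hL
  have hL0 : 0 < L := Nat.pow_pos hB0
  have hL' : (0 : ℝ) < L := by exact_mod_cast hL0
  obtain ⟨N1, hN1⟩ := hloc L (ε / (4 * L)) (by positivity)
  obtain ⟨N2, hN2⟩ := exists_nat_ge (2 * (L : ℝ) / ε)
  refine ⟨max N1 N2, fun N hN => ?_⟩
  have hN1' := hN1 N (le_trans (le_max_left _ _) hN)
  have hN2' : 2 * (L : ℝ) ≤ ε * N := by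
    have h3 : (N2 : ℝ) ≤ N := by exact_mod_cast le_trans (le_max_right _ _) hN
    have h4 := hN2.trans h3
    rw [div_le_iff₀ hε] at h4
    linarith
  have hdiff : ∀ n m, |α n - av B α k m| ≤ 1 := by
    intro n m
    have e := av_mem hB0 h0 h1 k m
    rw [abs_le]
    constructor <;> linarith [h0 n, h1 n, e.1, e.2]
  set M := N / L with hM
  have hNM : N = L * M + N % L := (Nat.div_add_mod N L).symm
  have hmod : N % L < L := Nat.mod_lt _ hL0
  rw [hNM, sum_range_add]
  have hrem : |∑ x ∈ range (N % L), f (L * M + x) * (α (L * M + x) - av B α k ((L * M + x) / L))| ≤ L := by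
    refine (abs_sum_le_sum_abs _ _).trans ?_
    calc ∑ x ∈ range (N % L), |f (L * M + x) * (α (L * M + x) - av B α k ((L * M + x) / L))|
        ≤ ∑ x ∈ range (N % L), (1 : ℝ) := by
          refine sum_le_sum fun x _ => ?_
          rw [abs_mul]
          calc |f (L * M + x)| * |α (L * M + x) - av B α k ((L * M + x) / L)| ≤ 1 * 1 :=
                mul_le_mul (hf _) (hdiff _ _) (abs_nonneg _) zero_le_one
            _ = 1 := one_mul 1
      _ = (N % L : ℕ) := by simp
      _ ≤ L := by exact_mod_cast hmod.le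
  have hmain : |∑ n ∈ range (L * M), f n * (α n - av B α k (n / L))| ≤ ε / 2 * N := by
    rw [sum_range_mul (fun n => f n * (α n - av B α k (n / L)))]
    have e1 : ∀ m ∈ range M, ∑ r ∈ range L, f (L * m + r) * (α (L * m + r) - av B α k ((L * m + r) / L))
        = ∑ r ∈ range L, (f (L * m + r) - f (L * m)) * (α (L * m + r) - av B α k m) := by
      intro m _
      have e2 : ∑ r ∈ range L, f (L * m) * (α (L * m + r) - av B α k m) = 0 := by
        rw [← mul_sum, sum_sub_distrib, hL, av_sum hB0 k m, sum_const, card_range, nsmul_eq_mul,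
          Nat.cast_pow, sub_self, mul_zero]
      rw [← add_zero (∑ r ∈ range L, (f (L * m + r) - f (L * m)) * (α (L * m + r) - av B α k m)),
        ← e2, ← sum_add_distrib]
      refine sum_congr rfl fun r hr => ?_
      rw [Nat.mul_add_div hL0, Nat.div_eq_of_lt (mem_range.1 hr), add_zero]
      ring
    rw [sum_congr rfl e1]
    refine (abs_sum_le_sum_abs _ _).trans ?_
    have e3 : ∀ m ∈ range M, |∑ r ∈ range L, (f (L * m + r) - f (L * m)) * (α (L * m + r) - av B α k m)| ≤
        if (∃ r ≤ L, f (L * m + r) ≠ f (L * m)) then 2 * (L : ℝ) else 0 := by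
      intro m _
      split_ifs with h
      · refine (abs_sum_le_sum_abs _ _).trans ?_
        calc ∑ r ∈ range L, |(f (L * m + r) - f (L * m)) * (α (L * m + r) - av B α k m)|
            ≤ ∑ r ∈ range L, (2 : ℝ) := by
              refine sum_le_sum fun r _ => ?_
              rw [abs_mul]
              have h3 : |f (L * m + r) - f (L * m)| ≤ 2 := by
                have h4 := hf (L * m + r)
                have h5 := hf (L * m)
                rw [abs_le] at *
                constructor <;> linarith [h4.1, h4.2, h5.1, h5.2]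
              calc |f (L * m + r) - f (L * m)| * |α (L * m + r) - av B α k m| ≤ 2 * 1 :=
                    mul_le_mul h3 (hdiff _ _) (abs_nonneg _) (by norm_num)
                _ = 2 := by norm_num
          _ = 2 * L := by rw [sum_const, card_range, nsmul_eq_mul]; ring
      · push Not at h
        rw [abs_nonpos_iff]
        apply sum_eq_zero
        intro r hr
        rw [h r (mem_range.1 hr).le, sub_self, zero_mul]
    refine (sum_le_sum e3).trans ?_
    rw [← sum_filter, sum_const, nsmul_eq_mul]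
    have e4 : #((range M).filter (fun m => ∃ r ≤ L, f (L * m + r) ≠ f (L * m))) ≤
        (({n ∈ range N | ∃ r ≤ L, f (n + r) ≠ f n} : Finset ℕ).card) := by
      apply card_le_card_of_injOn (fun m => L * m)
      · intro m hm
        rw [mem_coe, mem_filter, mem_range] at hm
        rw [mem_coe, mem_filter, mem_range]
        refine ⟨?_, hm.2⟩
        have : L * m < L * M := Nat.mul_lt_mul_of_pos_left hm.1 hL0
        change L * m < N
        omega
      · intro m _ m' _ h
        exact Nat.eq_of_mul_eq_mul_left hL0 h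
    have e5 : (#((range M).filter (fun m => ∃ r ≤ L, f (L * m + r) ≠ f (L * m))) : ℝ) ≤
        ε / (4 * L) * N := (Nat.cast_le.2 e4).trans hN1'
    calc (#((range M).filter (fun m => ∃ r ≤ L, f (L * m + r) ≠ f (L * m))) : ℝ) * (2 * L)
        ≤ ε / (4 * L) * N * (2 * L) := mul_le_mul_of_nonneg_right e5 (by positivity)
      _ = ε / 2 * N := by field_simp; ring
  have hfin := abs_add_le (∑ n ∈ range (L * M), f n * (α n - av B α k (n / L)))
    (∑ x ∈ range (N % L), f (L * M + x) * (α (L * M + x) - av B α k ((L * M + x) / L)))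
  have e6 : ((L * M + N % L : ℕ) : ℝ) = N := by rw [← hNM]
  rw [e6]
  linarith

/-- uniform smallness of the partial sums -/
lemma partial_small (hf : ∀ n, |f n| ≤ 1)
    (hmean : ∀ ε : ℝ, 0 < ε → ∃ N0 : ℕ, ∀ N ≥ N0, |∑ n ∈ range N, f n| ≤ ε * N) {η : ℝ} (hη : 0 < η) :
    ∃ N0 : ℕ, ∀ N ≥ N0, ∀ M ≤ N, |∑ n ∈ range M, f n| ≤ η * N := by
  obtain ⟨N1, hN1⟩ := hmean η hη
  obtain ⟨N2, hN2⟩ := exists_nat_ge ((N1 : ℝ) / η)
  refine ⟨N2, fun N hN M hM => ?_⟩
  have hMN : (M : ℝ) ≤ N := by exact_mod_cast hM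
  rcases Nat.lt_or_ge M N1 with h | h
  · have h1 : |∑ n ∈ range M, f n| ≤ M := by
      refine (abs_sum_le_sum_abs _ _).trans ?_
      calc ∑ n ∈ range M, |f n| ≤ ∑ n ∈ range M, (1 : ℝ) := sum_le_sum fun n _ => hf n
        _ = M := by simp
    have h2 : (M : ℝ) ≤ N1 := by exact_mod_cast h.le
    have h3 : (N2 : ℝ) ≤ N := by exact_mod_cast hN
    have h4 : (N1 : ℝ) ≤ N * η := by
      rw [← div_le_iff₀ hη]; exact hN2.trans h3
    linarith
  · refine (hN1 M h).trans ?_
    exact mul_le_mul_of_nonneg_left hMN hη.le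

/-- the sum against a function which is constant on few long cells -/
lemma cell_sum {N W C : ℕ} (hW : 0 < W) (hNW : N / W + 1 ≤ C) {η : ℝ}
    (hpart : ∀ M ≤ N, |∑ n ∈ range M, f n| ≤ η * N) {c : ℕ → ℝ} (hc : ∀ z, |c z| ≤ 1) :
    |∑ n ∈ range N, f n * c (n / W)| ≤ C * (2 * η * N) := by
  classical
  have hmaps : ∀ n ∈ range N, n / W ∈ range (N / W + 1) := by
    intro n hn
    rw [mem_range] at hn ⊢
    exact Nat.lt_succ_of_le (Nat.div_le_div_right hn.le)
  rw [← sum_fiberwise_of_maps_to hmaps (fun n => f n * c (n / W))]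
  have hcell : ∀ z ∈ range (N / W + 1),
      |∑ n ∈ (range N).filter (fun n => n / W = z), f n * c (n / W)| ≤ 2 * η * N := by
    intro z hz
    rw [mem_range] at hz
    have hz' : z ≤ N / W := by omega
    have e1 : ∑ n ∈ (range N).filter (fun n => n / W = z), f n * c (n / W) =
        c z * ∑ n ∈ (range N).filter (fun n => n / W = z), f n := by
      rw [mul_sum]
      refine sum_congr rfl fun n hn => ?_
      rw [(mem_filter.1 hn).2, mul_comm]
    have hWz : W * z ≤ N := by
      calc W * z ≤ W * (N / W) := Nat.mul_le_mul_left _ hz'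
        _ ≤ N := Nat.mul_div_le N W
    have e2 : (range N).filter (fun n => n / W = z) = Ico (W * z) (min N (W * (z + 1))) := by
      ext n
      rw [mem_filter, mem_range, mem_Ico, lt_min_iff]
      constructor
      · rintro ⟨h1, h2⟩
        refine ⟨?_, h1, ?_⟩
        · rw [← h2]; exact Nat.mul_div_le n W
        · rw [← h2, mul_add, mul_one]
          have := Nat.div_add_mod n W
          have h4 := Nat.mod_lt n hW
          omega
      · rintro ⟨h1, h2, h3⟩
        refine ⟨h2, ?_⟩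
        apply Nat.div_eq_of_lt_le
        · rw [mul_comm]; exact h1
        · rw [mul_comm]; exact h3
    have hle : W * z ≤ min N (W * (z + 1)) := le_min hWz (Nat.mul_le_mul_left _ (by omega))
    have e3 : ∑ n ∈ (range N).filter (fun n => n / W = z), f n =
        ∑ n ∈ range (min N (W * (z + 1))), f n - ∑ n ∈ range (W * z), f n := by
      rw [e2, sum_Ico_eq_sub _ hle]
    rw [e1, e3, abs_mul]
    have h1 := hpart _ (min_le_left N (W * (z + 1)))
    have h2 := hpart _ hWz
    have h3 := abs_sub (∑ n ∈ range (min N (W * (z + 1))), f n) (∑ n ∈ range (W * z), f n)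
    have h4 : |∑ n ∈ range (min N (W * (z + 1))), f n - ∑ n ∈ range (W * z), f n| ≤ 2 * η * N := by
      linarith
    have h5 := mul_le_mul (hc z) h4 (abs_nonneg _) zero_le_one
    linarith
  refine (abs_sum_le_sum_abs _ _).trans ((sum_le_sum hcell).trans ?_)
  rw [sum_const, card_range, nsmul_eq_mul]
  have h1 : ((N / W + 1 : ℕ) : ℝ) ≤ C := by exact_mod_cast hNW
  have h2 : 0 ≤ 2 * η * N := by
    have := hpart N le_rfl
    have h3 := abs_nonneg (∑ n ∈ range N, f n)
    linarith
  exact mul_le_mul_of_nonneg_right h1 h2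

/-- **Main estimate.** -/
theorem main_sum {Q : Type*} {F : ℕ → Q} {P : ℕ → Prop} (hB : 2 ≤ B) (h0 : ∀ n, 0 ≤ α n)
    (h1 : ∀ n, α n ≤ 1) (hα : ∀ x y, F x = F y → α x = α y)
    (hstep : ∀ x y r, r < B → F x = F y → F (B * x + r) = F (B * y + r))
    (hP1 : ∀ n m j, P n → m / B ^ j = n → P m) (hP2 : ∀ n, ∃ r < B, P (B * n + r))
    (hmeet : ∀ n j m1 m2, P n → m1 / B ^ j = n → m2 / B ^ j = n →
        ∃ r1 < B, ∃ r2 < B, F (B * m1 + r1) = F (B * m2 + r2))
    (hf : ∀ n, |f n| ≤ 1)
    (hmean : ∀ ε : ℝ, 0 < ε → ∃ N0 : ℕ, ∀ N ≥ N0, |∑ n ∈ range N, f n| ≤ ε * N)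
    (hloc : ∀ L : ℕ, ∀ ε : ℝ, 0 < ε → ∃ N0 : ℕ, ∀ N ≥ N0,
      (({n ∈ range N | ∃ r ≤ L, f (n + r) ≠ f n} : Finset ℕ).card : ℝ) ≤ ε * N)
    {ε : ℝ} (hε : 0 < ε) :
    ∃ N0 : ℕ, ∀ N ≥ N0, |∑ n ∈ range N, f n * α n| ≤ ε * N := by
  classical
  have hB0 : 0 < B := by omega
  have hB' : (0 : ℝ) < B := by exact_mod_cast hB0
  have hB1 : (1 : ℝ) ≤ B := by exact_mod_cast hB0
  have hθ0 : 0 ≤ 1 - 1 / (B : ℝ) := by
    rw [sub_nonneg, div_le_one hB']; exact hB1
  have hθ1 : 1 - 1 / (B : ℝ) < 1 := by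
    have : 0 < 1 / (B : ℝ) := by positivity
    linarith
  obtain ⟨k, hk⟩ := exists_pow_lt_of_lt_one (show 0 < ε / 4 by positivity) hθ1
  obtain ⟨Z0, hZ1, hZ0⟩ := bad_density hB hP1 hP2 (show 0 < ε / 8 by positivity)
  obtain ⟨N1, hN1⟩ := block_avg hB h0 h1 hf hloc k (show 0 < ε / 4 by positivity)
  have hη : 0 < ε / (8 * (B * Z0 + 1)) := by positivity
  obtain ⟨N2, hN2⟩ := partial_small hf hmean hη
  refine ⟨max (max N1 N2) (B ^ k * Z0), fun N hN => ?_⟩
  have hN1' := hN1 N (le_trans (le_trans (le_max_left _ _) (le_max_left _ _)) hN)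
  have hN2' := hN2 N (le_trans (le_trans (le_max_right _ _) (le_max_left _ _)) hN)
  have hN3 : B ^ k * Z0 ≤ N := le_trans (le_max_right _ _) hN
  -- the scale
  set J := Nat.log B (N / Z0) with hJ
  have hNZ : B ^ k ≤ N / Z0 := by
    rw [Nat.le_div_iff_mul_le (by omega)]; exact hN3
  have hNZ0 : N / Z0 ≠ 0 := by
    have : 0 < B ^ k := Nat.pow_pos hB0
    omega
  have hkJ : k ≤ J := by
    rw [hJ]
    exact Nat.le_log_of_pow_le (by omega) hNZ
  set W := B ^ J with hW
  have hW0 : 0 < W := Nat.pow_pos hB0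
  have hWN : W * Z0 ≤ N := by
    have := Nat.pow_log_le_self B hNZ0
    rw [← hJ, ← hW, Nat.le_div_iff_mul_le (by omega)] at this
    exact this
  have hNW : N < B * W * Z0 := by
    have := Nat.lt_pow_succ_log_self (b := B) (by omega) (N / Z0)
    rw [← hJ] at this
    rw [Nat.div_lt_iff_lt_mul (by omega), Nat.succ_eq_add_one, pow_succ'] at this
    exact this
  have hcells : N / W + 1 ≤ B * Z0 + 1 := by
    have : N / W < B * Z0 := by
      rw [Nat.div_lt_iff_lt_mul hW0]
      calc N < B * W * Z0 := hNW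
        _ = B * Z0 * W := by ring
    omega
  have hWR : (0 : ℝ) < W := by exact_mod_cast hW0
  -- the comparison function
  set g : ℕ → ℝ := fun n => av B α k (n / B ^ k) with hg
  set c : ℕ → ℝ := fun z => av B α k (B ^ (J - k) * z) with hc
  have hav := av_mem (B := B) (α := α) hB0 h0 h1 k
  have hc1 : ∀ z, |c z| ≤ 1 := by
    intro z
    rw [abs_le]
    exact ⟨by linarith [(hav (B ^ (J - k) * z)).1], (hav _).2⟩
  have hgc : ∀ n, |g n - c (n / W)| ≤ (1 - 1 / (B : ℝ)) ^ k + if P (n / W) then 0 else 1 := by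
    intro n
    have hpk : 0 ≤ (1 - 1 / (B : ℝ)) ^ k := pow_nonneg hθ0 _
    split_ifs with hp
    · rw [add_zero]
      refine av_osc hB h0 h1 hα hstep hmeet k (n / W) (J - k) _ _ hp ?_ ?_
      · rw [Nat.div_div_eq_div_mul, ← pow_add, hW]
        congr 2
        omega
      · exact Nat.mul_div_cancel_left _ (Nat.pow_pos hB0)
    · have e1 := hav (n / B ^ k)
      have e2 := hav (B ^ (J - k) * (n / W))
      have e3 : |g n - c (n / W)| ≤ 1 := by
        rw [abs_le]
        constructor
        · change -1 ≤ av B α k (n / B ^ k) - av B α k (B ^ (J - k) * (n / W))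
          linarith [e1.1, e2.2]
        · change av B α k (n / B ^ k) - av B α k (B ^ (J - k) * (n / W)) ≤ 1
          linarith [e1.2, e2.1]
      linarith
  -- bad cells
  have hbad : (#{n ∈ range N | ¬ P (n / W)} : ℝ) ≤ ε / 4 * N := by
    have e1 : #{n ∈ range N | ¬ P (n / W)} ≤ #{z ∈ range (N / W + 1) | ¬ P z} * W := by
      have hsub : (range N).filter (fun n => ¬ P (n / W)) ⊆
          ((range (N / W + 1)).filter (fun z => ¬ P z)).biUnion
            (fun z => (range W).image (fun r => W * z + r)) := by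
        intro n hn
        rw [mem_filter, mem_range] at hn
        rw [mem_biUnion]
        refine ⟨n / W, ?_, ?_⟩
        · rw [mem_filter, mem_range]
          exact ⟨Nat.lt_succ_of_le (Nat.div_le_div_right hn.1.le), hn.2⟩
        · rw [mem_image]
          exact ⟨n % W, mem_range.2 (Nat.mod_lt _ hW0), Nat.div_add_mod n W⟩
      refine (card_le_card hsub).trans (card_biUnion_le.trans ?_)
      refine (sum_le_card_nsmul _ _ W (fun z _ => ?_)).trans ?_
      · exact card_image_le.trans (card_range W).le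
      · rw [smul_eq_mul]
    have e2 : Z0 ≤ N / W + 1 := by
      have : Z0 ≤ N / W := by
        rw [Nat.le_div_iff_mul_le hW0, mul_comm]; exact hWN
      omega
    have e3 := hZ0 (N / W + 1) e2
    have e4 : ((N / W : ℕ) : ℝ) ≤ (N : ℝ) / W := Nat.cast_div_le
    have e5 : (W : ℝ) ≤ N := by
      have : W ≤ N := le_trans (Nat.le_mul_of_pos_right W (by omega)) hWN
      exact_mod_cast this
    calc (#{n ∈ range N | ¬ P (n / W)} : ℝ) ≤ #{z ∈ range (N / W + 1) | ¬ P z} * W := by
          exact_mod_cast e1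
      _ ≤ ε / 8 * ((N / W + 1 : ℕ) : ℝ) * W := mul_le_mul_of_nonneg_right e3 hWR.le
      _ = ε / 8 * ((((N / W : ℕ) : ℝ) + 1) * W) := by push_cast; ring
      _ ≤ ε / 8 * (((N : ℝ) / W + 1) * W) := by gcongr
      _ = ε / 8 * (N + W) := by field_simp
      _ ≤ ε / 8 * (N + N) := by gcongr
      _ = ε / 4 * N := by ring
  -- assembling
  have hsum1 : |∑ n ∈ range N, f n * (g n - c (n / W))| ≤ ε / 4 * N + ε / 4 * N := by
    refine (abs_sum_le_sum_abs _ _).trans ?_
    have e1 : ∀ n ∈ range N, |f n * (g n - c (n / W))| ≤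
        (1 - 1 / (B : ℝ)) ^ k + if P (n / W) then 0 else 1 := by
      intro n _
      rw [abs_mul]
      calc |f n| * |g n - c (n / W)| ≤ 1 * |g n - c (n / W)| :=
            mul_le_mul_of_nonneg_right (hf n) (abs_nonneg _)
        _ ≤ _ := by rw [one_mul]; exact hgc n
    refine (sum_le_sum e1).trans ?_
    rw [sum_add_distrib, sum_const, card_range, nsmul_eq_mul]
    have e2 : ∑ n ∈ range N, (if P (n / W) then (0 : ℝ) else 1) = #{n ∈ range N | ¬ P (n / W)} := by
      rw [card_filter, Nat.cast_sum]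
      refine sum_congr rfl fun n _ => ?_
      by_cases h : P (n / W) <;> simp [h]
    rw [e2]
    have e3 : (N : ℝ) * (1 - 1 / (B : ℝ)) ^ k ≤ ε / 4 * N := by
      rw [mul_comm]
      exact mul_le_mul_of_nonneg_right hk.le (Nat.cast_nonneg _)
    linarith
  have hsum2 : |∑ n ∈ range N, f n * c (n / W)| ≤ ε / 4 * N := by
    refine (cell_sum hW0 hcells hN2' hc1).trans (le_of_eq ?_)
    push_cast
    field_simp
    ring
  have hsplit : ∑ n ∈ range N, f n * α n = ∑ n ∈ range N, f n * (α n - av B α k (n / B ^ k)) +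
      (∑ n ∈ range N, f n * (g n - c (n / W)) + ∑ n ∈ range N, f n * c (n / W)) := by
    rw [← sum_add_distrib, ← sum_add_distrib]
    refine sum_congr rfl fun n _ => ?_
    simp only [hg]
    ring
  rw [hsplit]
  have h3 := abs_add_le (∑ n ∈ range N, f n * (α n - av B α k (n / B ^ k)))
    (∑ n ∈ range N, f n * (g n - c (n / W)) + ∑ n ∈ range N, f n * c (n / W))
  have h4 := abs_add_le (∑ n ∈ range N, f n * (g n - c (n / W))) (∑ n ∈ range N, f n * c (n / W))
  linarith

end Pool.Agent.H10.AU
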